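import Mathlib

/-!
Weak compactness tools in a reflexive real normed space.
-/

open Filter Topology Metric Set

namespace Pool.Agent.P.MP_438bde_an

section General

variable {Y : Type*} [NormedAddCommGroup Y] [NormedSpace ℝ Y]

theorem mem_closure_of_forall_dual (S : Submodule ℝ Y) (x : Y)
    (h : ∀ f : Y →L[ℝ] ℝ, (∀ s ∈ S, f s = 0) → f x = 0) : x ∈ closure (S : Set Y) := by
  by_contra hx
  obtain ⟨f, u, hfx, hfu⟩ := geometric_hahn_banach_point_closed
    (S.convex.closure) isClosed_closure hx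
  have h0 : u < 0 := by simpa using hfu 0 (subset_closure S.zero_mem)
  have hS : ∀ s ∈ S, f s = 0 := by
    intro s hs
    by_contra hne
    have := hfu ((u / f s) • s) (subset_closure (S.smul_mem _ hs))
    rw [map_smul, smul_eq_mul, div_mul_cancel₀ _ hne] at this
    exact lt_irrefl _ this
  have := h f hS
  linarith

/-- Weak-star limit of a bounded sequence of functionals along an ultrafilter. -/
theorem exists_ultra_limit_dual (U : Ultrafilter ℕ) (v : ℕ → (Y →L[ℝ] ℝ)) (M : ℝ)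
    (hv : ∀ n, ‖v n‖ ≤ M) :
    ∃ w : Y →L[ℝ] ℝ, ∀ y : Y, Tendsto (fun j => v j y) U (𝓝 (w y)) := by
  let v' : ℕ → WeakDual ℝ Y := fun n => StrongDual.toWeakDual (v n)
  have hK := WeakDual.isCompact_closedBall (𝕜 := ℝ) (E := Y) 0 M
  have hle : (↑(U.map v') : Filter (WeakDual ℝ Y)) ≤
      𝓟 (WeakDual.toStrongDual ⁻¹' closedBall (0 : StrongDual ℝ Y) M) := by
    rw [Ultrafilter.coe_map, le_principal_iff, mem_map]
    refine univ_mem' fun n => ?_
    simpa [v'] using hv n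
  obtain ⟨w, -, hw⟩ := hK.ultrafilter_le_nhds (U.map v') hle
  refine ⟨WeakDual.toStrongDual w, fun y => ?_⟩
  have h1 : Tendsto v' U (𝓝 w) := hw
  exact ((WeakDual.eval_continuous y).tendsto w).comp h1

end General

variable {X : Type*} [NormedAddCommGroup X] [NormedSpace ℝ X]

theorem exists_ultra_limit
    (hrefl : ∀ φ : (X →L[ℝ] ℝ) →L[ℝ] ℝ, ∃ x : X, ∀ f : X →L[ℝ] ℝ, φ f = f x)
    (U : Ultrafilter ℕ) (v : ℕ → X) (M : ℝ) (hv : ∀ n, ‖v n‖ ≤ M) :
    ∃ x : X, ∀ f : X →L[ℝ] ℝ, Tendsto (fun j => f (v j)) U (𝓝 (f x)) := by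
  obtain ⟨w, hw⟩ := exists_ultra_limit_dual U
    (fun n => NormedSpace.inclusionInDoubleDual ℝ X (v n)) M
    (fun n => (NormedSpace.double_dual_bound ℝ X (v n)).trans (hv n))
  obtain ⟨x, hx⟩ := hrefl w
  refine ⟨x, fun f => ?_⟩
  have := hw f
  rw [hx] at this
  simpa using this

/-- A bounded sequence in a reflexive space has a weakly convergent subsequence. -/
theorem exists_weak_subseq
    (hrefl : ∀ φ : (X →L[ℝ] ℝ) →L[ℝ] ℝ, ∃ x : X, ∀ f : X →L[ℝ] ℝ, φ f = f x)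
    (u : ℕ → X) (M : ℝ) (hu : ∀ n, ‖u n‖ ≤ M) :
    ∃ (φ : ℕ → ℕ) (x : X), StrictMono φ ∧
      ∀ f : X →L[ℝ] ℝ, Tendsto (fun j => f (u (φ j))) atTop (𝓝 (f x)) := by
  let S : Submodule ℝ X := Submodule.span ℝ (range u)
  have hsep : TopologicalSpace.IsSeparable (closure (S : Set X)) :=
    ((countable_range u).isSeparable.span).closure
  obtain ⟨c, hc, hSc⟩ := hsep
  have hne : (insert (0 : X) c).Nonempty := insert_nonempty _ _
  obtain ⟨y, hy⟩ := (hc.insert 0).exists_eq_range hne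
  choose g hg1 hg2 using fun k => exists_dual_vector'' ℝ (y k)
  have hsepar : ∀ x ∈ closure (S : Set X), (∀ k, g k x = 0) → x = 0 := by
    intro x hx h0
    refine norm_le_zero_iff.mp (le_of_forall_pos_le_add fun ε hε => ?_)
    obtain ⟨b, hb, hxb⟩ := Metric.mem_closure_iff.mp (hSc hx) (ε / 2) (by positivity)
    obtain ⟨k, rfl⟩ : b ∈ range y := hy ▸ mem_insert_of_mem _ hb
    rw [dist_eq_norm] at hxb
    have e1 : ‖y k‖ = g k (y k - x) := by
      rw [map_sub, h0 k, sub_zero]; exact (hg2 k).symm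
    have e2 : g k (y k - x) ≤ ‖y k - x‖ := by
      refine (le_abs_self _).trans ?_
      have := (g k).le_opNorm (y k - x)
      rw [Real.norm_eq_abs] at this
      exact this.trans (mul_le_of_le_one_left (norm_nonneg _) (hg1 k))
    have e3 : ‖x‖ ≤ ‖y k‖ + ‖x - y k‖ := norm_le_norm_add_norm_sub' x (y k)
    rw [norm_sub_rev] at e2
    linarith
  have hK : IsCompact (Set.pi univ fun _ : ℕ => Icc (-M) M) :=
    isCompact_univ_pi fun _ => isCompact_Icc
  have hmem : ∀ n, (fun k => g k (u n)) ∈ Set.pi univ fun _ : ℕ => Icc (-M) M := by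
    intro n k _
    have := (g k).le_opNorm (u n)
    rw [Real.norm_eq_abs] at this
    exact abs_le.mp (this.trans ((mul_le_of_le_one_left (norm_nonneg _) (hg1 k)).trans (hu n)))
  obtain ⟨a, -, φ, hφ, hlim⟩ := hK.tendsto_subseq hmem
  have hlimk : ∀ k, Tendsto (fun j => g k (u (φ j))) atTop (𝓝 (a k)) := fun k =>
    ((continuous_apply k).tendsto a).comp hlim
  have hU : ∀ U : Ultrafilter ℕ, (U : Filter ℕ) ≤ atTop → ∃ x ∈ closure (S : Set X),
      (∀ k, g k x = a k) ∧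
      ∀ f : X →L[ℝ] ℝ, Tendsto (fun j => f (u (φ j))) U (𝓝 (f x)) := by
    intro U hUle
    obtain ⟨x, hx⟩ := exists_ultra_limit hrefl U (fun j => u (φ j)) M (fun j => hu _)
    refine ⟨x, mem_closure_of_forall_dual S x fun f hf => ?_, fun k => ?_, hx⟩
    · have h1 := hx f
      have h2 : (fun j => f (u (φ j))) = fun _ => 0 :=
        funext fun j => hf _ (Submodule.subset_span (mem_range_self _))
      rw [h2] at h1
      exact tendsto_nhds_unique h1 tendsto_const_nhds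
    · exact tendsto_nhds_unique (hx (g k)) ((hlimk k).mono_left hUle)
  obtain ⟨x0, hx0, hx0k, -⟩ := hU (Ultrafilter.of atTop) (Ultrafilter.of_le _)
  refine ⟨φ, x0, hφ, fun f => ?_⟩
  rw [tendsto_iff_ultrafilter]
  intro U hUle
  obtain ⟨x, hx, hxk, hxf⟩ := hU U hUle
  have : x - x0 = 0 := by
    refine hsepar _ (S.topologicalClosure.sub_mem hx hx0) fun k => ?_
    rw [map_sub, hxk, hx0k, sub_self]
  rw [← sub_eq_zero.mp this]
  exact hxf f

/-- A finite dimensional space of functionals is normed by a finite dimensional subspace. -/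
theorem exists_norming (Z : Submodule ℝ (X →L[ℝ] ℝ)) [FiniteDimensional ℝ Z] :
    ∃ F : Submodule ℝ X, FiniteDimensional ℝ F ∧
      ∀ ζ ∈ Z, ∃ w ∈ F, ‖w‖ ≤ 1 ∧ ‖ζ‖ ≤ 2 * ζ w := by
  have hK : IsCompact (sphere (0 : Z) 1) := isCompact_sphere _ _
  let V : closedBall (0 : X) 1 → Set Z := fun w => {ζ | 1 / 2 < (ζ : X →L[ℝ] ℝ) w}
  have hV : ∀ w, IsOpen (V w) := by
    intro w
    refine isOpen_lt continuous_const ?_
    exact ((ContinuousLinearMap.apply ℝ ℝ (w : X)).continuous).comp continuous_subtype_val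
  have hcov : sphere (0 : Z) 1 ⊆ ⋃ w, V w := by
    intro ζ hζ
    have h1 : ‖(ζ : X →L[ℝ] ℝ)‖ = 1 := mem_sphere_zero_iff_norm.mp hζ
    obtain ⟨x, hx, hx2⟩ := (ζ : X →L[ℝ] ℝ).exists_lt_apply_of_lt_opNorm (r := 1 / 2)
      (by rw [h1]; norm_num)
    rw [Real.norm_eq_abs] at hx2
    rcases le_or_gt 0 ((ζ : X →L[ℝ] ℝ) x) with h | h
    · rw [abs_of_nonneg h] at hx2
      exact mem_iUnion.mpr ⟨⟨x, by simpa using hx.le⟩, hx2⟩
    · rw [abs_of_neg h] at hx2
      exact mem_iUnion.mpr ⟨⟨-x, by simpa using hx.le⟩, by simpa [V] using hx2⟩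
  obtain ⟨t, ht⟩ := hK.elim_finite_subcover V hV hcov
  refine ⟨Submodule.span ℝ ((fun w : closedBall (0 : X) 1 => (w : X)) '' (t : Set _)),
    FiniteDimensional.span_of_finite ℝ (t.finite_toSet.image _), fun ζ hζ => ?_⟩
  by_cases h0 : ζ = 0
  · exact ⟨0, Submodule.zero_mem _, by simp, by simp [h0]⟩
  have hn : 0 < ‖ζ‖ := norm_pos_iff.mpr h0
  have hmem : (⟨‖ζ‖⁻¹ • ζ, Z.smul_mem _ hζ⟩ : Z) ∈ sphere (0 : Z) 1 := by
    have h1 : ‖(⟨‖ζ‖⁻¹ • ζ, Z.smul_mem _ hζ⟩ : Z)‖ = 1 := by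
      change ‖‖ζ‖⁻¹ • ζ‖ = 1
      rw [norm_smul, norm_inv, norm_norm, inv_mul_cancel₀ hn.ne']
    exact (mem_sphere_zero_iff_norm (E := Z)).mpr h1
  obtain ⟨w, hw, hw2⟩ := mem_iUnion₂.mp (ht hmem)
  refine ⟨w, Submodule.subset_span (mem_image_of_mem _ hw), mem_closedBall_zero_iff.mp w.2, ?_⟩
  have h3 : 1 / 2 < ‖ζ‖⁻¹ * ζ w := by simpa [V] using hw2
  rw [inv_mul_eq_div, lt_div_iff₀ hn] at h3
  linarith

/-- If the functionals of a bounded sequence eventually kill a family of subspaces that norms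
their span, then the sequence tends to zero pointwise. -/
theorem tendsto_zero_of_norming
    (hrefl : ∀ φ : (X →L[ℝ] ℝ) →L[ℝ] ℝ, ∃ x : X, ∀ f : X →L[ℝ] ℝ, φ f = f x)
    (ζ : ℕ → (X →L[ℝ] ℝ)) (M : ℝ) (hM : ∀ n, ‖ζ n‖ ≤ M)
    (hnorm : ∀ η ∈ Submodule.span ℝ (range ζ), ∃ w : X, ‖w‖ ≤ 1 ∧ ‖η‖ ≤ 2 * η w ∧
      ∀ᶠ n in atTop, ζ n w = 0) (v : X) :
    Tendsto (fun n => ζ n v) atTop (𝓝 0) := by
  rw [tendsto_iff_ultrafilter]
  intro U hU
  obtain ⟨w, hw⟩ := exists_ultra_limit_dual U ζ M hM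
  have hcl : w ∈ closure (Submodule.span ℝ (range ζ) : Set (X →L[ℝ] ℝ)) := by
    refine mem_closure_of_forall_dual _ w fun φ hφ => ?_
    obtain ⟨x, hx⟩ := hrefl φ
    rw [hx]
    have h1 := hw x
    have h2 : (fun j => ζ j x) = fun _ => 0 := funext fun j => by
      rw [← hx]; exact hφ _ (Submodule.subset_span (mem_range_self _))
    rw [h2] at h1
    exact tendsto_nhds_unique h1 tendsto_const_nhds
  have hw0 : w = 0 := by
    refine norm_le_zero_iff.mp (le_of_forall_pos_le_add fun ε hε => ?_)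
    obtain ⟨η, hη, hwη⟩ := Metric.mem_closure_iff.mp hcl (ε / 3) (by positivity)
    obtain ⟨x, hx1, hx2, hx3⟩ := hnorm η hη
    have e0 : w x = 0 := by
      refine tendsto_nhds_unique (hw x) ?_
      exact tendsto_const_nhds.congr' ((hx3.filter_mono hU).mono fun n hn => hn.symm)
    rw [dist_eq_norm] at hwη
    have e1 : η x = (η - w) x := by simp [e0]
    have e2 : (η - w) x ≤ ‖η - w‖ := by
      refine (le_abs_self _).trans ?_
      have := (η - w).le_opNorm x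
      rw [Real.norm_eq_abs] at this
      exact this.trans (mul_le_of_le_one_right (norm_nonneg _) hx1)
    have e3 : ‖w‖ ≤ ‖η‖ + ‖w - η‖ := norm_le_norm_add_norm_sub' w η
    rw [norm_sub_rev] at e2
    linarith
  have := hw v
  rwa [hw0] at this

end Pool.Agent.P.MP_438bde_an
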