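import Mathlib
import Pool.Agent.Lib.Brouwer.Basic
import Pool.Agent.P.MP_438bde_an.Weak

/-!
Galerkin approximations for a bounded, not necessarily continuous, field of functionals.
-/

open Filter Topology Metric Set

namespace Pool.Agent.P.MP_438bde_an

variable {X : Type*} [NormedAddCommGroup X] [NormedSpace ℝ X]

theorem exists_approx (r : X → (X →L[ℝ] ℝ)) (ρ M : ℝ) (hρ : 0 ≤ ρ)
    (hM : ∀ p, ‖p‖ ≤ ρ → ‖r p‖ ≤ M) (hpos : ∀ p, ‖p‖ = ρ → 0 < r p p)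
    (F : Submodule ℝ X) [FiniteDimensional ℝ F] (δ : ℝ) (hδ : 0 < δ) :
    ∃ z ∈ F, ‖z‖ ≤ ρ ∧ ∃ ζ : X →L[ℝ] ℝ, ‖ζ‖ ≤ M ∧ (∀ w ∈ F, ζ w = 0) ∧
      ∀ v, ∃ p, ‖p - z‖ < δ ∧ r p v ≤ ζ v := by
  let t : F → Set (X →L[ℝ] ℝ) := fun z =>
    {ζ | (‖(z : X)‖ ≤ ρ → ‖ζ‖ ≤ M ∧ ∀ v, ∃ p : X, ‖p - z‖ < δ ∧ r p v ≤ ζ v) ∧
      (ρ < ‖(z : X)‖ → 0 < ζ z)}
  have ht : ∀ z, Convex ℝ (t z) := by
    intro z ζ hζ ζ' hζ' a b ha hb hab
    refine ⟨fun hz => ⟨?_, fun v => ?_⟩, fun hz => ?_⟩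
    · refine (norm_add_le _ _).trans ?_
      rw [norm_smul, norm_smul, Real.norm_eq_abs, Real.norm_eq_abs, abs_of_nonneg ha,
        abs_of_nonneg hb]
      have e3 : M = a * M + b * M := by rw [← add_mul, hab, one_mul]
      nlinarith [mul_le_mul_of_nonneg_left (hζ.1 hz).1 ha,
        mul_le_mul_of_nonneg_left (hζ'.1 hz).1 hb]
    · simp only [add_apply, smul_apply, smul_eq_mul]
      rcases le_total (ζ v) (ζ' v) with h | h
      · obtain ⟨p, hp, hpv⟩ := (hζ.1 hz).2 v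
        refine ⟨p, hp, hpv.trans ?_⟩
        have e3 : ζ v = a * ζ v + b * ζ v := by rw [← add_mul, hab, one_mul]
        nlinarith [mul_le_mul_of_nonneg_left h hb]
      · obtain ⟨p, hp, hpv⟩ := (hζ'.1 hz).2 v
        refine ⟨p, hp, hpv.trans ?_⟩
        have e3 : ζ' v = a * ζ' v + b * ζ' v := by rw [← add_mul, hab, one_mul]
        nlinarith [mul_le_mul_of_nonneg_left h ha]
    · simp only [add_apply, smul_apply, smul_eq_mul]
      have h1 := hζ.2 hz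
      have h2 := hζ'.2 hz
      rcases ha.lt_or_eq with h | h
      · nlinarith [mul_pos h h1, mul_nonneg hb h2.le]
      · rw [← h, zero_add] at hab
        rw [← h, hab]
        simpa using h2
  have hloc : ∀ x : F, ∃ c : X →L[ℝ] ℝ, ∀ᶠ y in 𝓝 x, c ∈ t y := by
    intro x
    have hn : Continuous fun y : F => ‖(y : X)‖ := continuous_subtype_val.norm
    have hev : ∀ c : X →L[ℝ] ℝ, 0 < c x → ∀ᶠ y : F in 𝓝 x, 0 < c y := fun c hc =>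
      (c.continuous.comp continuous_subtype_val).continuousAt.eventually (lt_mem_nhds hc)
    have hnear : ∀ᶠ y : F in 𝓝 x, ‖(x : X) - y‖ < δ := by
      have hc : Continuous fun y : F => ‖(x : X) - y‖ :=
        (continuous_const.sub continuous_subtype_val).norm
      exact hc.continuousAt.eventually (gt_mem_nhds (by simpa using hδ))
    rcases lt_trichotomy ‖(x : X)‖ ρ with h | h | h
    · refine ⟨r x, ?_⟩
      filter_upwards [hnear, hn.continuousAt.eventually (gt_mem_nhds h)] with y hy hy2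
      exact ⟨fun _ => ⟨hM _ h.le, fun v => ⟨x, hy, le_rfl⟩⟩, fun h' => absurd h' hy2.not_gt⟩
    · refine ⟨r x, ?_⟩
      filter_upwards [hnear, hev _ (hpos _ h)] with y hy hy2
      exact ⟨fun _ => ⟨hM _ h.le, fun v => ⟨x, hy, le_rfl⟩⟩, fun _ => hy2⟩
    · obtain ⟨c, -, hc⟩ := exists_dual_vector'' ℝ (x : X)
      have hc' : c x = ‖(x : X)‖ := hc
      refine ⟨c, ?_⟩
      filter_upwards [hn.continuousAt.eventually (lt_mem_nhds h),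
        hev c (hc' ▸ hρ.trans_lt h)] with y hy hy2
      exact ⟨fun h' => absurd hy h'.not_gt, fun _ => hy2⟩
  obtain ⟨g, hg⟩ := exists_continuous_forall_mem_convex_of_local_const ht hloc
  obtain ⟨z, hz⟩ := Pool.Agent.Lib.Brouwer.exists_zero_of_pos_radial
    (fun z : F => (g z).comp F.subtypeL) (g.continuous.clm_comp continuous_const) ρ
    (fun z hz => (hg z).2 hz)
  have hz0 : ∀ w ∈ F, g z w = 0 := fun w hw =>
    congrArg (fun φ : StrongDual ℝ F => φ ⟨w, hw⟩) hz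
  have hzρ : ‖(z : X)‖ ≤ ρ := by
    by_contra h
    have := (hg z).2 (not_le.mp h)
    rw [hz0 _ z.2] at this
    exact lt_irrefl _ this
  exact ⟨z, z.2, hzρ, g z, ((hg z).1 hzρ).1, hz0, ((hg z).1 hzρ).2⟩

theorem exists_seq
    (hrefl : ∀ φ : (X →L[ℝ] ℝ) →L[ℝ] ℝ, ∃ x : X, ∀ f : X →L[ℝ] ℝ, φ f = f x)
    (r : X → (X →L[ℝ] ℝ)) (ρ M : ℝ) (hρ : 0 ≤ ρ)
    (hM : ∀ p, ‖p‖ ≤ ρ → ‖r p‖ ≤ M) (hpos : ∀ p, ‖p‖ = ρ → 0 < r p p) :
    ∃ (z : ℕ → X) (ζ : ℕ → (X →L[ℝ] ℝ)) (zb : X), (∀ n, ‖z n‖ ≤ ρ) ∧ (∀ n, ζ n (z n) = 0) ∧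
      (∀ v, Tendsto (fun n => ζ n v) atTop (𝓝 0)) ∧
      (∀ f : X →L[ℝ] ℝ, Tendsto (fun n => f (z n)) atTop (𝓝 (f zb))) ∧
      ∀ n v, ∃ p, ‖p - z n‖ < 1 / ((n : ℝ) + 1) ∧ r p v ≤ ζ n v := by
  let S := {s : Submodule ℝ X × Submodule ℝ (X →L[ℝ] ℝ) //
    FiniteDimensional ℝ s.1 ∧ FiniteDimensional ℝ s.2}
  have happ : ∀ (s : S) (n : ℕ), ∃ z ∈ s.1.1, ‖z‖ ≤ ρ ∧ ∃ ζ : X →L[ℝ] ℝ, ‖ζ‖ ≤ M ∧
      (∀ w ∈ s.1.1, ζ w = 0) ∧ ∀ v, ∃ p, ‖p - z‖ < 1 / ((n : ℝ) + 1) ∧ r p v ≤ ζ v := by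
    intro s n
    have := s.2.1
    exact exists_approx r ρ M hρ hM hpos s.1.1 _ Nat.one_div_pos_of_nat
  choose zf hzF hzρ ζf hζM hζF hζv using happ
  have hstep : ∀ (s : S) (n : ℕ), ∃ s' : S, s.1.1 ≤ s'.1.1 ∧ s.1.2 ≤ s'.1.2 ∧ ζf s n ∈ s'.1.2 ∧
      ∀ η ∈ s'.1.2, ∃ w ∈ s'.1.1, ‖w‖ ≤ 1 ∧ ‖η‖ ≤ 2 * η w := by
    intro s n
    have := s.2.1
    have := s.2.2
    obtain ⟨N, hN, hN2⟩ := exists_norming (s.1.2 ⊔ Submodule.span ℝ {ζf s n})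
    refine ⟨⟨(s.1.1 ⊔ N, s.1.2 ⊔ Submodule.span ℝ {ζf s n}), inferInstance, inferInstance⟩,
      le_sup_left, le_sup_left,
      Submodule.mem_sup_right (Submodule.mem_span_singleton_self _), fun η hη => ?_⟩
    obtain ⟨w, hw, hw2⟩ := hN2 η hη
    exact ⟨w, Submodule.mem_sup_right hw, hw2⟩
  choose step hs1 hs2 hs3 hs4 using hstep
  let σ : ℕ → S := fun n => Nat.rec ⟨(⊥, ⊥), inferInstance, inferInstance⟩ (fun n s => step s n) n
  have hσ : ∀ n, σ (n + 1) = step (σ n) n := fun _ => rfl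
  have hF : Monotone fun n => (σ n).1.1 := monotone_nat_of_le_succ fun n => by
    rw [hσ]; exact hs1 _ _
  have hZ : Monotone fun n => (σ n).1.2 := monotone_nat_of_le_succ fun n => by
    rw [hσ]; exact hs2 _ _
  let ζ : ℕ → (X →L[ℝ] ℝ) := fun n => ζf (σ n) n
  let z : ℕ → X := fun n => zf (σ n) n
  have hspan : ∀ η ∈ Submodule.span ℝ (range ζ), ∃ m, η ∈ (σ (m + 1)).1.2 := by
    intro η hη
    induction hη using Submodule.span_induction with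
    | mem x hx =>
      obtain ⟨n, rfl⟩ := hx
      exact ⟨n, hσ n ▸ hs3 _ _⟩
    | zero => exact ⟨0, Submodule.zero_mem _⟩
    | add x y _ _ hx hy =>
      obtain ⟨m, hm⟩ := hx
      obtain ⟨k, hk⟩ := hy
      exact ⟨max m k, Submodule.add_mem _ 
        (hZ (show m + 1 ≤ max m k + 1 by omega) hm) (hZ (show k + 1 ≤ max m k + 1 by omega) hk)⟩
    | smul a x _ hx =>
      obtain ⟨m, hm⟩ := hx
      exact ⟨m, Submodule.smul_mem _ _ hm⟩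
  have hζ0 : ∀ v, Tendsto (fun n => ζ n v) atTop (𝓝 0) := by
    refine tendsto_zero_of_norming hrefl ζ M (fun n => hζM _ _) fun η hη => ?_
    obtain ⟨m, hm⟩ := hspan η hη
    rw [hσ] at hm
    obtain ⟨w, hw, hw1, hw2⟩ := hs4 _ _ η hm
    refine ⟨w, hw1, hw2, ?_⟩
    filter_upwards [eventually_ge_atTop (m + 1)] with n hn
    rw [← hσ] at hw
    exact hζF _ _ w (hF hn hw)
  obtain ⟨φ, zb, hφ, hzb⟩ := exists_weak_subseq hrefl z ρ fun n => hzρ _ _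
  refine ⟨fun n => z (φ n), fun n => ζ (φ n), zb, fun n => hzρ _ _,
    fun n => hζF _ _ _ (hzF _ _), fun v => (hζ0 v).comp hφ.tendsto_atTop, hzb, fun n v => ?_⟩
  obtain ⟨p, hp, hpv⟩ := hζv (σ (φ n)) (φ n) v
  refine ⟨p, hp.trans_le ?_, hpv⟩
  exact Nat.one_div_le_one_div (hφ.id_le n)

end Pool.Agent.P.MP_438bde_an
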