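import Mathlib

/-!
Decomposition lemma: for a maximal monotone T on a reflexive space, every z is x + n with
y in T x, the norm of y at most C and y n = C times the norm of n.
-/

open Filter Topology Metric Set

namespace Pool.Agent.P.MP_438bde_an

theorem real_minimax {E F : Type*} [TopologicalSpace E] [AddCommGroup E] [Module ℝ E]
    [IsTopologicalAddGroup E] [ContinuousSMul ℝ E]
    [TopologicalSpace F] [AddCommGroup F] [Module ℝ F]
    [IsTopologicalAddGroup F] [ContinuousSMul ℝ F]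
    (K : Set E) (Y : Set F) (f : E → F → ℝ) (hne : K.Nonempty) (cK : Convex ℝ K)
    (kK : IsCompact K) (cY : Convex ℝ Y)
    (h1 : ∀ y, Continuous fun x => f x y) (h2 : ∀ x, Continuous fun y => f x y)
    (h3 : ∀ y, ConvexOn ℝ K fun x => f x y) (h4 : ∀ x, ConcaveOn ℝ Y fun y => f x y)
    (h : ∀ y ∈ Y, ∃ x ∈ K, f x y ≤ 0) : ∃ x ∈ K, ∀ y ∈ Y, f x y ≤ 0 := by
  let g : E → F → EReal := fun x y => ((f x y : ℝ) : EReal)
  have hfy : ∀ y ∈ Y, LowerSemicontinuousOn (fun x : E => g x y) K := fun y _ =>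
    (continuous_coe_real_ereal.comp (h1 y)).continuousOn.lowerSemicontinuousOn
  have hfx : ∀ x ∈ K, UpperSemicontinuousOn (fun y : F => g x y) Y := fun x _ =>
    (continuous_coe_real_ereal.comp (h2 x)).continuousOn.upperSemicontinuousOn
  have hfy' : ∀ y ∈ Y, QuasiconvexOn ℝ K fun x => g x y := fun y _ =>
    QuasiconvexOn.monotone_comp (g := Real.toEReal) EReal.coe_strictMono.monotone
      (h3 y).quasiconvexOn
  have hfx' : ∀ x ∈ K, QuasiconcaveOn ℝ Y fun y => g x y := fun x _ =>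
    QuasiconcaveOn.monotone_comp (g := Real.toEReal) EReal.coe_strictMono.monotone
      (h4 x).quasiconcaveOn
  have hmm := Sion.minimax' hne cK kK hfy hfy' cY hfx hfx'
  have hle : (⨆ y ∈ Y, ⨅ x ∈ K, g x y) ≤ 0 := by
    refine iSup₂_le fun y hy => ?_
    obtain ⟨x, hx, hxy⟩ := h y hy
    refine (iInf₂_le x hx).trans ?_
    simp only [g]
    exact_mod_cast hxy
  have hlsc : LowerSemicontinuousOn (fun x => ⨆ y ∈ Y, g x y) K := fun x hx => by
    apply lowerSemicontinuousWithinAt_iSup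
    intro i
    exact lowerSemicontinuousWithinAt_iSup fun hi => hfy i hi x hx
  obtain ⟨a, ha, ha'⟩ := LowerSemicontinuousOn.exists_isMinOn hne kK hlsc
  refine ⟨a, ha, fun y hy => ?_⟩
  have e1 : g a y ≤ ⨆ y ∈ Y, g a y := le_iSup₂ (f := fun y (_ : y ∈ Y) => g a y) y hy
  have e2 : (⨆ y ∈ Y, g a y) ≤ ⨅ x ∈ K, ⨆ y ∈ Y, g x y := le_iInf₂ ha'
  have e3 : g a y ≤ 0 := e1.trans (e2.trans (hmm ▸ hle))
  simp only [g] at e3
  exact_mod_cast e3

variable {X : Type*} [NormedAddCommGroup X] [NormedSpace ℝ X]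

theorem apply_le_norm_mul (f : X →L[ℝ] ℝ) (x : X) : f x ≤ ‖f‖ * ‖x‖ :=
  (le_abs_self _).trans (by simpa using f.le_opNorm x)

theorem neg_norm_mul_le_apply (f : X →L[ℝ] ℝ) (x : X) : -(‖f‖ * ‖x‖) ≤ f x := by
  have := apply_le_norm_mul f (-x)
  rw [map_neg, norm_neg] at this
  linarith

theorem weak_ball_mem {Y : Type*} [NormedAddCommGroup Y] [NormedSpace ℝ Y]
    (c : Y →L[ℝ] ℝ) (r : ℝ) (w : WeakDual ℝ Y) :
    w ∈ (WeakDual.toStrongDual ⁻¹' closedBall c r : Set (WeakDual ℝ Y)) ↔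
      ‖WeakDual.toStrongDual w - c‖ ≤ r := by
  rw [mem_preimage, mem_closedBall, dist_eq_norm]

theorem weak_ball_convex {Y : Type*} [NormedAddCommGroup Y] [NormedSpace ℝ Y]
    (c : Y →L[ℝ] ℝ) (r : ℝ) :
    Convex ℝ (WeakDual.toStrongDual ⁻¹' closedBall c r : Set (WeakDual ℝ Y)) :=
  (convex_closedBall c r).linear_preimage
    (WeakDual.toStrongDual (𝕜 := ℝ) (E := Y)).toLinearMap

theorem weak_minimax {A B : Type*} [NormedAddCommGroup A] [NormedSpace ℝ A]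
    [NormedAddCommGroup B] [NormedSpace ℝ B] {F : Type*} [NormedAddCommGroup F] [NormedSpace ℝ F]
    (c : A →L[ℝ] ℝ) (r s : ℝ) (hr : 0 ≤ r) (hs : 0 ≤ s) (Y : Set F) (cY : Convex ℝ Y)
    (α : F →L[ℝ] A) (β : F →L[ℝ] B) (z : B) (γ : F →L[ℝ] ℝ)
    (h : ∀ y ∈ Y, ∃ (φ : A →L[ℝ] ℝ) (v : B →L[ℝ] ℝ), ‖φ - c‖ ≤ r ∧ ‖v‖ ≤ s ∧
      φ (α y) + v (β y - z) + γ y ≤ 0) :
    ∃ (φ : A →L[ℝ] ℝ) (v : B →L[ℝ] ℝ), ‖φ - c‖ ≤ r ∧ ‖v‖ ≤ s ∧
      ∀ y ∈ Y, φ (α y) + v (β y - z) + γ y ≤ 0 := by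
  let K1 : Set (WeakDual ℝ A) := WeakDual.toStrongDual ⁻¹' closedBall c r
  let K2 : Set (WeakDual ℝ B) := WeakDual.toStrongDual ⁻¹' closedBall 0 s
  let f : WeakDual ℝ A × WeakDual ℝ B → F → ℝ :=
    fun q y => q.1 (α y) + q.2 (β y - z) + γ y
  have hne : (K1 ×ˢ K2).Nonempty :=
    ⟨(StrongDual.toWeakDual c, StrongDual.toWeakDual 0),
      (weak_ball_mem c r _).mpr (by simpa using hr), (weak_ball_mem 0 s _).mpr (by simpa using hs)⟩
  have cK : Convex ℝ (K1 ×ˢ K2) := (weak_ball_convex c r).prod (weak_ball_convex 0 s)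
  have kK : IsCompact (K1 ×ˢ K2) :=
    (WeakDual.isCompact_closedBall c r).prod (WeakDual.isCompact_closedBall 0 s)
  have h1 : ∀ y, Continuous fun x => f x y := fun y =>
    (((WeakDual.eval_continuous _).comp continuous_fst).add
      ((WeakDual.eval_continuous _).comp continuous_snd)).add continuous_const
  have h2 : ∀ x, Continuous fun y => f x y := by
    intro q
    have c1 : Continuous fun g : A => q.1 g := (WeakDual.toStrongDual q.1).continuous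
    have c2 : Continuous fun g : B => q.2 g := (WeakDual.toStrongDual q.2).continuous
    exact ((c1.comp α.continuous).add (c2.comp (β.continuous.sub continuous_const))).add
      γ.continuous
  have h3 : ∀ y, ConvexOn ℝ (K1 ×ˢ K2) fun x => f x y := by
    intro y
    refine ⟨cK, ?_⟩
    intro q _ q' _ s t _ _ hst
    have e1 : (s • q + t • q').1 (α y) = s * q.1 (α y) + t * q'.1 (α y) := rfl
    have e2 : (s • q + t • q').2 (β y - z) = s * q.2 (β y - z) + t * q'.2 (β y - z) := rfl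
    simp only [f, smul_eq_mul]
    rw [e1, e2]
    have : t = 1 - s := by linarith
    subst this
    apply le_of_eq
    ring
  have h4 : ∀ x, ConcaveOn ℝ Y fun y => f x y := by
    intro q
    refine ⟨cY, ?_⟩
    intro p _ p' _ s t _ _ hst
    have : t = 1 - s := by linarith
    subst this
    simp only [f, map_add, map_smul, map_sub, smul_eq_mul]
    apply le_of_eq
    ring
  have h5 : ∀ y ∈ Y, ∃ x ∈ K1 ×ˢ K2, f x y ≤ 0 := by
    intro y hy
    obtain ⟨φ, v, hφ, hv, hle⟩ := h y hy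
    exact ⟨(StrongDual.toWeakDual φ, StrongDual.toWeakDual v),
      ⟨(weak_ball_mem c r _).mpr hφ, (weak_ball_mem 0 s _).mpr (by simpa using hv)⟩, hle⟩
  obtain ⟨q, hq, hqY⟩ := real_minimax (K1 ×ˢ K2) Y f hne cK kK cY h1 h2 h3 h4 h5
  exact ⟨WeakDual.toStrongDual q.1, WeakDual.toStrongDual q.2, (weak_ball_mem c r _).mp hq.1,
    by simpa using (weak_ball_mem 0 s _).mp hq.2, hqY⟩

theorem fitz_ge (T : X → Set (X →L[ℝ] ℝ))
    (hmax : ∀ (x : X) (f : X →L[ℝ] ℝ),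
      (∀ y : X, ∀ g ∈ T y, 0 ≤ (f - g) (x - y)) → f ∈ T x)
    (a : X) (b : X →L[ℝ] ℝ) (t : ℝ)
    (hab : ∀ a' : X, ∀ b' ∈ T a', b' a + b a' - b' a' ≤ t) : b a ≤ t := by
  by_contra hlt
  push Not at hlt
  have hpos : ∀ a' : X, ∀ b' ∈ T a', 0 < (b - b') (a - a') := by
    intro a' b' hb'
    have := hab a' b' hb'
    simp only [sub_apply, map_sub]
    linarith
  have := hpos a b (hmax a b fun a' b' hb' => (hpos a' b' hb').le)
  simp at this

theorem exists_decomp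
    (hrefl : ∀ φ : (X →L[ℝ] ℝ) →L[ℝ] ℝ, ∃ x : X, ∀ f : X →L[ℝ] ℝ, φ f = f x)
    (T : X → Set (X →L[ℝ] ℝ))
    (hmon : ∀ x y : X, ∀ f ∈ T x, ∀ g ∈ T y, 0 ≤ (f - g) (x - y))
    (hmax : ∀ (x : X) (f : X →L[ℝ] ℝ),
      (∀ y : X, ∀ g ∈ T y, 0 ≤ (f - g) (x - y)) → f ∈ T x)
    (x0 : X) (y0 : X →L[ℝ] ℝ) (h0 : y0 ∈ T x0) (C : ℝ) (hC : 3 * ‖y0‖ ≤ C) (z : X) :
    ∃ x : X, ∃ y ∈ T x, ‖y‖ ≤ C ∧ y (z - x) = C * ‖z - x‖ ∧ ‖z - x‖ ≤ 2 * ‖z - x0‖ := by
  have hC0 : 0 ≤ C := le_trans (by positivity) hC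
  let ι : X →L[ℝ] ((X →L[ℝ] ℝ) →L[ℝ] ℝ) := NormedSpace.inclusionInDoubleDual ℝ X
  have hιnorm : ∀ x y : X, ‖ι x - ι y‖ = ‖x - y‖ := fun x y => by
    have e : ι x - ι y = ι (x - y) := by
      ext g
      change g x - g y = g (x - y)
      rw [map_sub]
    rw [e]
    exact (NormedSpace.inclusionInDoubleDualLi ℝ (E := X)).norm_map (x - y)
  have hιapp : ∀ (x : X) (g : X →L[ℝ] ℝ), ι x g = g x := fun _ _ => rfl
  let F := (X × ℝ) × ((X →L[ℝ] ℝ) × (X →L[ℝ] ℝ))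
  let Y : Set F :=
    {p | (∀ a : X, ∀ b ∈ T a, b p.1.1 + p.2.1 a - b a ≤ p.1.2) ∧ ‖p.2.2‖ ≤ C}
  have cY : Convex ℝ Y := by
    intro p hp p' hp' s t hs ht hst
    refine ⟨fun a b hb => ?_, ?_⟩
    · have e1 := hp.1 a b hb
      have e2 := hp'.1 a b hb
      change b (s • p.1.1 + t • p'.1.1) + (s • p.2.1 + t • p'.2.1) a - b a
        ≤ s * p.1.2 + t * p'.1.2
      simp only [map_add, map_smul, smul_eq_mul, add_apply, smul_apply]
      have e3 : b a = s * b a + t * b a := by rw [← add_mul, hst, one_mul]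
      nlinarith [mul_le_mul_of_nonneg_left e1 hs, mul_le_mul_of_nonneg_left e2 ht]
    · change ‖s • p.2.2 + t • p'.2.2‖ ≤ C
      refine (norm_add_le _ _).trans ?_
      rw [norm_smul, norm_smul, Real.norm_eq_abs, Real.norm_eq_abs, abs_of_nonneg hs,
        abs_of_nonneg ht]
      have e3 : C = s * C + t * C := by rw [← add_mul, hst, one_mul]
      nlinarith [mul_le_mul_of_nonneg_left hp.2 hs, mul_le_mul_of_nonneg_left hp'.2 ht]
  let α : F →L[ℝ] (X →L[ℝ] ℝ) :=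
    (ContinuousLinearMap.fst ℝ _ _).comp (ContinuousLinearMap.snd ℝ _ _) +
      (ContinuousLinearMap.snd ℝ _ _).comp (ContinuousLinearMap.snd ℝ _ _)
  let β : F →L[ℝ] X := (ContinuousLinearMap.fst ℝ _ _).comp (ContinuousLinearMap.fst ℝ _ _)
  let γ : F →L[ℝ] ℝ :=
    -((ι z).comp ((ContinuousLinearMap.snd ℝ _ _).comp (ContinuousLinearMap.snd ℝ _ _))) -
      (ContinuousLinearMap.snd ℝ _ _).comp (ContinuousLinearMap.fst ℝ _ _)
  have hα : ∀ p : F, α p = p.2.1 + p.2.2 := fun _ => rfl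
  have hβ : ∀ p : F, β p = p.1.1 := fun _ => rfl
  have hγ : ∀ p : F, γ p = -(p.2.2 z) - p.1.2 := fun _ => rfl
  have hyp : ∀ p ∈ Y, ∃ (φ : (X →L[ℝ] ℝ) →L[ℝ] ℝ) (v : X →L[ℝ] ℝ),
      ‖φ - ι z‖ ≤ 2 * ‖z - x0‖ ∧ ‖v‖ ≤ C ∧ φ (α p) + v (β p - z) + γ p ≤ 0 := by
    rintro ⟨⟨a, t⟩, b, g⟩ ⟨hp, hg⟩
    simp only at hp hg
    obtain ⟨v, hv1, hv2⟩ := exists_dual_vector'' ℝ (a - z)
    have hv2' : v (a - z) = ‖a - z‖ := hv2
    have hvK : ‖-(C • v)‖ ≤ C := by
      rw [norm_neg, norm_smul, Real.norm_eq_abs, abs_of_nonneg hC0]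
      exact mul_le_of_le_one_right hC0 hv1
    have hgu : ∀ u : X, g u - g z ≤ C * ‖u - z‖ := by
      intro u
      rw [← map_sub]
      exact (apply_le_norm_mul g _).trans (mul_le_mul_of_nonneg_right hg (norm_nonneg _))
    by_cases hc : ‖a - z‖ ≤ 2 * ‖z - x0‖
    · refine ⟨ι a, -(C • v), by rw [hιnorm]; exact hc, hvK, ?_⟩
      rw [hα, hβ, hγ, hιapp]
      simp only [add_apply, neg_apply, smul_apply, smul_eq_mul, hv2']
      have := fitz_ge T hmax a b t hp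
      have := hgu a
      linarith
    · push Not at hc
      refine ⟨ι x0, -(C • v), ?_, hvK, ?_⟩
      · rw [hιnorm, norm_sub_rev]; linarith [norm_nonneg (z - x0)]
      rw [hα, hβ, hγ, hιapp]
      simp only [add_apply, neg_apply, smul_apply, smul_eq_mul, hv2']
      have e1 := hp x0 y0 h0
      have e2 := hgu x0
      have e3 := neg_norm_mul_le_apply y0 (a - x0)
      rw [map_sub] at e3
      have e4 : ‖a - x0‖ ≤ ‖a - z‖ + ‖z - x0‖ := norm_sub_le_norm_sub_add_norm_sub a z x0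
      have e5 := mul_le_mul_of_nonneg_left e4 (norm_nonneg y0)
      rw [norm_sub_rev x0 z] at e2
      nlinarith [norm_nonneg y0, norm_nonneg (z - x0), norm_nonneg (a - z)]
  obtain ⟨φ, v, hφ, hvC, hqY⟩ := weak_minimax (ι z) (2 * ‖z - x0‖) C (by positivity) hC0 Y cY
    α β z γ hyp
  obtain ⟨u, hu⟩ := hrefl φ
  have huρ : ‖z - u‖ ≤ 2 * ‖z - x0‖ := by
    have h2 : φ = ι u := by
      ext g; rw [hu]; rfl
    rw [h2, hιnorm, norm_sub_rev] at hφ
    exact hφ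
  obtain ⟨w, hw1, hw2⟩ := exists_dual_vector'' ℝ (u - z)
  have hw2' : w (u - z) = ‖u - z‖ := hw2
  have hkey : ∀ a : X, ∀ b ∈ T a, b u + v a - b a ≤ v z - C * ‖z - u‖ := by
    intro a b hb
    have hmem : (((a, b a), b, C • w) : F) ∈ Y := by
      refine ⟨fun a' b' hb' => ?_, ?_⟩
      · have := hmon a a' b hb b' hb'
        simp only [sub_apply, map_sub] at this
        simp only
        linarith
      · simp only
        rw [norm_smul, Real.norm_eq_abs, abs_of_nonneg hC0]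
        exact mul_le_of_le_one_right hC0 hw1
    have h1 := hqY _ hmem
    rw [hα, hβ, hγ, hu] at h1
    simp only [add_apply, smul_apply, smul_eq_mul, map_sub] at h1 hw2'
    rw [norm_sub_rev z u, ← hw2']
    linarith
  have h1 := fitz_ge T hmax u v _ hkey
  have h2 : v (z - u) ≤ C * ‖z - u‖ :=
    (apply_le_norm_mul v _).trans (mul_le_mul_of_nonneg_right hvC (norm_nonneg _))
  rw [map_sub] at h2
  refine ⟨u, v, hmax u v fun a b hb => ?_, hvC, ?_, huρ⟩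
  · have := hkey a b hb
    simp only [sub_apply, map_sub]
    linarith
  · rw [map_sub]; linarith

end Pool.Agent.P.MP_438bde_an
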