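import Pool.Agent.P.MP_438bde_an.HSeq

/-! Existence of a zero for perturbations of relative bound less than one. -/

open Filter Topology Metric Set

namespace Multi438

variable {X : Type*} [NormedAddCommGroup X] [NormedSpace ℝ X]

theorem exists_big (k a : ℝ) (hk : k < 1) : ∀ᶠ C : ℝ in atTop, k * C + a ≤ C := by
  filter_upwards [eventually_ge_atTop (a / (1 - k))] with C hC
  rw [div_le_iff₀ (by linarith)] at hC
  linarith

theorem core1
    (hrefl : ∀ φ : (X →L[ℝ] ℝ) →L[ℝ] ℝ, ∃ x : X, ∀ f : X →L[ℝ] ℝ, φ f = f x)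
    (T S : X → Set (X →L[ℝ] ℝ))
    (hmon : ∀ x y : X, ∀ f ∈ T x, ∀ g ∈ T y, 0 ≤ (f - g) (x - y))
    (hmax : ∀ (x : X) (f : X →L[ℝ] ℝ),
      (∀ y : X, ∀ g ∈ T y, 0 ≤ (f - g) (x - y)) → f ∈ T x)
    (hcv : ∀ x, (T x).Nonempty → Convex ℝ (S x))
    (hrb : ∀ R : ℝ, ∃ k : ℝ, k < 1 ∧ ∃ M : ℝ, ∀ x : X, ‖x‖ ≤ R → ∀ y ∈ T x,
      ∃ w ∈ S x, ‖w‖ ≤ k * ‖y‖ + M)
    (hgp : GP T S)
    (R : ℝ) (hco : ∀ x : X, ∀ y ∈ T x, ∀ w ∈ S x, R ≤ ‖x‖ → 0 < (y + w) x) :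
    ∃ x : X, ∃ y ∈ T x, ∃ w ∈ S x, y + w = 0 := by
  have hrb' : ∀ R : ℝ, ∃ k : ℝ, 0 ≤ k ∧ k < 1 ∧ ∃ M : ℝ, 0 ≤ M ∧ ∀ x : X, ‖x‖ ≤ R → ∀ y ∈ T x,
      ∃ w ∈ S x, ‖w‖ ≤ k * ‖y‖ + M := by
    intro R
    obtain ⟨k, hk, M, hM⟩ := hrb R
    refine ⟨max k 0, le_max_right _ _, max_lt hk one_pos, max M 0, le_max_right _ _,
      fun x hx y hy => ?_⟩
    obtain ⟨w, hw, hw2⟩ := hM x hx y hy
    exact ⟨w, hw, hw2.trans (add_le_add
      (mul_le_mul_of_nonneg_right (le_max_left _ _) (norm_nonneg _)) (le_max_left _ _))⟩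
  obtain ⟨x0, y0, h0⟩ : ∃ x0, ∃ y0, y0 ∈ T x0 := by
    by_contra hcon
    push Not at hcon
    exact hcon 0 0 (hmax 0 0 fun y g hg => absurd hg (hcon y g))
  have hx0 := norm_nonneg x0
  have hy0 := norm_nonneg y0
  obtain ⟨R1, hR1pos, hRR1⟩ : ∃ R1 : ℝ, 0 ≤ R1 ∧ R ≤ R1 :=
    ⟨max R 0, le_max_right _ _, le_max_left _ _⟩
  obtain ⟨k1, hk10, hk1, M1, hM10, hM1⟩ := hrb' R1
  obtain ⟨D, hD0, hD⟩ : ∃ D : ℝ, 0 ≤ D ∧ k1 * D + (‖x0‖ + R1 + 1) ≤ D :=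
    ((eventually_ge_atTop 0).and (exists_big k1 _ hk1)).exists
  obtain ⟨ρ, hρ⟩ : ∃ ρ : ℝ, ρ = R1 + D := ⟨_, rfl⟩
  have hρ0 : 0 ≤ ρ := by linarith
  obtain ⟨R', hR'⟩ : ∃ R' : ℝ, R' = ρ + 2 * (ρ + ‖x0‖) := ⟨_, rfl⟩
  have hR'0 : 0 ≤ R' := by linarith
  obtain ⟨k2, hk20, hk2, M2, hM20, hM2⟩ := hrb' R'
  obtain ⟨C, ⟨hC1, hC2⟩, hC3, hC4⟩ : ∃ C : ℝ, (3 * (‖y0‖ + ‖x0‖) + 1 ≤ C ∧
      (k1 * R' + M1) * ρ + (‖y0‖ + ‖x0‖) * (R1 + ‖x0‖) + 1 ≤ C) ∧
      k1 * C + (k1 * R' + M1) ≤ C ∧ k2 * C + (k2 * R' + M2) ≤ C :=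
    (((eventually_ge_atTop _).and (eventually_ge_atTop _)).and
      ((exists_big k1 _ hk1).and (exists_big k2 _ hk2))).exists
  have hC0 : 0 ≤ C := by linarith
  have hθ1 : ∀ n : ℕ, 1 / ((n : ℝ) + 1) ≤ 1 := fun n => by
    rw [div_le_one (by positivity)]; linarith [Nat.cast_nonneg (α := ℝ) n]
  have hθ0 : ∀ n : ℕ, 0 < 1 / ((n : ℝ) + 1) := fun n => Nat.one_div_pos_of_nat
  have hθ : Tendsto (fun n : ℕ => 1 / ((n : ℝ) + 1)) atTop (𝓝 0) :=
    tendsto_one_div_add_atTop_nhds_zero_nat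
  have hμex : ∀ (G : Finset (X →L[ℝ] ℝ)) (n : ℕ), ∃ μ : ℝ, 0 < μ ∧ μ ≤ 1 ∧
      ∀ x, ‖Lq μ G x‖ ≤ 1 / ((n : ℝ) + 1) * ‖x‖ := by
    intro G n
    have hs : 0 ≤ ∑ g ∈ G, ‖g‖ ^ 2 := Finset.sum_nonneg fun g _ => sq_nonneg _
    have hp : 0 < 1 / ((n : ℝ) + 1) / (1 + ∑ g ∈ G, ‖g‖ ^ 2) := div_pos (hθ0 n) (by linarith)
    refine ⟨_, hp, ?_, fun x => (Lq_norm hp.le G x).trans ?_⟩
    · rw [div_le_one (by linarith)]
      linarith [hθ1 n]
    · refine mul_le_mul_of_nonneg_right ?_ (norm_nonneg _)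
      rw [div_mul_eq_mul_div, div_le_iff₀ (by linarith)]
      exact mul_le_mul_of_nonneg_left (by linarith) (hθ0 n).le
  choose μ hμ0 hμ1 hμL using hμex
  have hL1 : ∀ G n x, ‖Lq (μ G n) G x‖ ≤ ‖x‖ := fun G n x =>
    (hμL G n x).trans (mul_le_of_le_one_left (norm_nonneg _) (hθ1 n))
  have hb0 : ∀ G n, ‖y0 + Lq (μ G n) G x0‖ ≤ ‖y0‖ + ‖x0‖ := fun G n =>
    (norm_add_le _ _).trans (add_le_add le_rfl (hL1 G n x0))
  choose xs ys hys hysC hysn hxs using fun G n =>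
    decompL hrefl T hmon hmax x0 y0 h0 C (μ G n) (hμ0 G n).le G (by linarith [hb0 G n])
  have hxsR : ∀ G n p, ‖p‖ ≤ ρ → ‖xs G n p‖ ≤ R' := by
    intro G n p hp
    have e1 : ‖xs G n p‖ ≤ ‖p‖ + ‖p - xs G n p‖ := by
      have := norm_sub_le p (p - xs G n p)
      rwa [sub_sub_cancel] at this
    have e2 := norm_sub_le p x0
    have e3 := hxs G n p
    linarith
  have hyB : ∀ G n p, ‖p‖ ≤ ρ → ‖ys G n p‖ ≤ C + R' := by
    intro G n p hp
    have e1 := norm_sub_le (ys G n p + Lq (μ G n) G (xs G n p)) (Lq (μ G n) G (xs G n p))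
    rw [add_sub_cancel_right] at e1
    linarith [hysC G n p, hL1 G n (xs G n p), hxsR G n p hp]
  have hwex : ∀ G n p, ∃ w : X →L[ℝ] ℝ, ‖p‖ ≤ ρ → w ∈ S (xs G n p) ∧ ‖w‖ ≤ C ∧
      (‖xs G n p‖ ≤ R1 → ‖w‖ ≤ k1 * C + (k1 * R' + M1)) := by
    intro G n p
    by_cases hp : ‖p‖ ≤ ρ
    · by_cases hx : ‖xs G n p‖ ≤ R1
      · obtain ⟨w, hw, hwC⟩ := hM1 _ hx _ (hys G n p)
        have := mul_le_mul_of_nonneg_left (hyB G n p hp) hk10
        exact ⟨w, fun _ => ⟨hw, by linarith, fun _ => by linarith⟩⟩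
      · obtain ⟨w, hw, hwC⟩ := hM2 _ (hxsR G n p hp) _ (hys G n p)
        have := mul_le_mul_of_nonneg_left (hyB G n p hp) hk20
        exact ⟨w, fun _ => ⟨hw, by linarith, fun h => absurd h hx⟩⟩
    · exact ⟨0, fun h => absurd h hp⟩
  choose ws hws using hwex
  let r : Finset (X →L[ℝ] ℝ) → ℕ → X → (X →L[ℝ] ℝ) := fun G n p =>
    ys G n p + Lq (μ G n) G (xs G n p) + ws G n p
  have hrM : ∀ G n p, ‖p‖ ≤ ρ → ‖r G n p‖ ≤ C + C := fun G n p hp =>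
    (norm_add_le _ _).trans (add_le_add (hysC G n p) (hws G n p hp).2.1)
  have hrn : ∀ G n p, ‖p‖ ≤ ρ → 0 ≤ r G n p (p - xs G n p) := fun G n p hp => by
    have e2 := hysn G n p
    have e3 := neg_mul_le_apply (hws G n p hp).2.1 (p - xs G n p)
    simp only [r, add_apply] at e2 e3 ⊢
    linarith
  have hpos : ∀ G n p, ‖p‖ = ρ → 0 < r G n p p := by
    intro G n p hp
    by_cases hx : ‖xs G n p‖ ≤ R1
    · have w1 := (hws G n p hp.le).2.2 hx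
      have e1 := hmon _ _ _ (hys G n p) _ h0
      have e1' := Lq_mono (hμ0 G n).le G (xs G n p) x0
      have e2 := hysn G n p
      have e3 := neg_mul_le_apply w1 (p - xs G n p)
      have e4 := neg_mul_le_apply (hysC G n p) x0
      have e5 := neg_mul_le_apply (hb0 G n) (xs G n p - x0)
      have e6 := neg_mul_le_apply w1 (xs G n p)
      have e7 : ‖xs G n p - x0‖ ≤ R1 + ‖x0‖ := (norm_sub_le _ _).trans (by linarith)
      have e8 : D ≤ ‖p - xs G n p‖ := by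
        have := norm_sub_norm_le p (xs G n p)
        linarith
      have e9 := mul_le_mul_of_nonneg_left e7 (show 0 ≤ ‖y0‖ + ‖x0‖ by linarith)
      have e10 := mul_le_mul_of_nonneg_left hx ((norm_nonneg _).trans w1)
      have e11 := mul_le_mul_of_nonneg_left e8
        (show 0 ≤ C - (k1 * C + (k1 * R' + M1)) by linarith)
      have e12 := mul_le_mul_of_nonneg_left hD hC0
      have e13 := mul_le_mul_of_nonneg_right (mul_le_of_le_one_left hC0 hk1.le) hR1pos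
      rw [hρ] at hC2
      simp only [r, add_apply, sub_apply, map_sub] at e1 e1' e2 e3 e4 e5 ⊢
      linarith
    · have e1 := hco _ _ (hys G n p) _ (hws G n p hp.le).1 (hRR1.trans (not_le.mp hx).le)
      have e2 := hrn G n p hp.le
      have e3 := Lq_self (hμ0 G n).le G (xs G n p)
      simp only [r, add_apply, map_sub] at e1 e2 ⊢
      linarith
  obtain ⟨G, m, P, xt, hm, hP, hxt, hsel⟩ := exists_seq1 hrefl xs r
    (fun G n => μ G n * (1 / ((n : ℝ) + 1))) ρ (C + C) R' (4 * C) hρ0 hrM hxsR hpos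
    (fun G n => mul_pos (hμ0 G n) (hθ0 n))
    (fun G n => mul_le_of_le_one_left (hθ0 n).le (hμ1 G n))
    (fun G n p p' hp g hg => by
      have e1 := hmon _ _ _ (hys G n p) _ (hys G n p')
      have e2 := Lq_sub (μ G n) G (xs G n p) (xs G n p')
      have e3 : μ G n * g (xs G n p - xs G n p') ^ 2 ≤
          ∑ g ∈ G, μ G n * g (xs G n p - xs G n p') ^ 2 :=
        Finset.single_le_sum (f := fun g : X →L[ℝ] ℝ => μ G n * g (xs G n p - xs G n p') ^ 2)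
          (fun g _ => mul_nonneg (hμ0 G n).le (sq_nonneg _)) hg
      have e4 := hysn G n p
      have e5 := hysn G n p'
      have e6 := apply_le_mul (hysC G n p) (p' - xs G n p')
      have e7 := apply_le_mul (hysC G n p') (p - xs G n p)
      have e8 := apply_le_mul (hysC G n p) (p - p')
      have e9 := neg_mul_le_apply (hysC G n p') (p - p')
      have e10 := mul_le_mul_of_nonneg_left hp hC0
      refine le_of_mul_le_mul_left ?_ (hμ0 G n)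
      rw [← e2] at e3
      generalize g (xs G n p - xs G n p') ^ 2 = t at e3 ⊢
      simp only [add_apply, sub_apply, map_sub] at e1 e3 e4 e5 e6 e7 e8 e9
      linarith)
  have hLs : ∀ (a : X) (ψ : ℕ → ℕ) (p : ℕ → X), Tendsto ψ atTop atTop → (∀ k, p k ∈ P (ψ k)) →
      Tendsto (fun k => Lq (μ (G (ψ k)) (m (ψ k))) (G (ψ k)) (xs (G (ψ k)) (m (ψ k)) (p k))
        (xs (G (ψ k)) (m (ψ k)) (p k) - a)) atTop (𝓝 0) := by
    intro a ψ p hψ hp
    have l1 : Tendsto (fun k => 1 / (((m (ψ k) : ℕ) : ℝ) + 1) * R' * (R' + ‖a‖)) atTop (𝓝 0) := by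
      simpa using ((hθ.comp (hm.tendsto_atTop.comp hψ)).mul_const R').mul_const (R' + ‖a‖)
    refine squeeze_zero_norm (fun k => ?_) l1
    have e1 := hxsR (G (ψ k)) (m (ψ k)) _ (hP _ _ (hp k))
    refine (ContinuousLinearMap.le_opNorm _ _).trans (mul_le_mul ((hμL _ _ _).trans
      (mul_le_mul_of_nonneg_left e1 (hθ0 _).le)) ((norm_sub_le _ _).trans (by linarith))
      (norm_nonneg _) (mul_nonneg (hθ0 _).le hR'0))
  have hlow : ∀ η : ℝ, 0 < η → ∀ᶠ n in atTop, ∀ p ∈ P n, -η ≤ r (G n) (m n) p (p - xt) := by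
    intro η hη
    by_contra hcon
    rw [not_eventually] at hcon
    obtain ⟨ψ, hψ, hψp⟩ := extraction_of_frequently_atTop hcon
    push Not at hψp
    choose p hp1 hp2 using hψp
    have hu := hxt ψ p hψ.tendsto_atTop hp1
    have l1 := gp_low hrefl (gp_self T hmon hmax) _ xt _ _ (C + R') (C + R') hu
      (fun k => hys _ _ _) (fun k => hyB _ _ _ (hP _ _ (hp1 k))) (fun k => hys _ _ _)
      (fun k => hyB _ _ _ (hP _ _ (hp1 k))) (η / 3) (by linarith)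
    have l2 := gp_low hrefl hgp _ xt _ _ (C + R') C hu
      (fun k => hys _ _ _) (fun k => hyB _ _ _ (hP _ _ (hp1 k)))
      (fun k => (hws _ _ _ (hP _ _ (hp1 k))).1)
      (fun k => (hws _ _ _ (hP _ _ (hp1 k))).2.1) (η / 3) (by linarith)
    have l3 := (hLs xt ψ p hψ.tendsto_atTop hp1).eventually
      (lt_mem_nhds (show -(η / 3) < 0 by linarith))
    obtain ⟨k, ⟨e1, e2⟩, e3⟩ := ((l1.and l2).and l3).exists
    have e4 := hp2 k
    have e5 := hrn (G (ψ k)) (m (ψ k)) _ (hP _ _ (hp1 k))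
    simp only [r, add_apply, map_sub] at e1 e2 e3 e4 e5
    linarith
  refine ⟨xt, final_zero hrefl T S hmon hmax hcv hgp xt (C + R') fun a => ?_⟩
  obtain ⟨B, hB⟩ : ∃ B : ℝ, B = 1 + (C + C) * (ρ + ‖a‖) := ⟨_, rfl⟩
  have hsel2 : ∀ k : ℕ, ∀ᶠ n in atTop, ∃ p ∈ P n,
      r (G n) (m n) p (p - xt) ≤ B * (1 / ((k : ℝ) + 1)) ∧
      r (G n) (m n) p (p - a) ≤ 2 * (1 / ((k : ℝ) + 1)) := by
    intro k
    have hθpos := hθ0 k
    have hθle := hθ1 k
    have hK : ((k : ℝ) + 1) * (1 / ((k : ℝ) + 1)) = 1 := by field_simp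
    generalize 1 / ((k : ℝ) + 1) = θ at hθpos hθle hK ⊢
    have hKpos : (0 : ℝ) < (k : ℝ) + 1 := by positivity
    filter_upwards [hsel a xt ((k : ℝ) + 1) θ hKpos.le hθpos, hlow (θ ^ 2) (by positivity)]
      with n hn1 hn2
    obtain ⟨p, hp, hpv⟩ := hn1
    have e1 := hn2 p hp
    have e10 := neg_mul_le_apply (hrM (G n) (m n) p (hP _ _ hp)) (p - a)
    have e11 : ‖p - a‖ ≤ ρ + ‖a‖ := (norm_sub_le _ _).trans (by linarith [hP _ _ hp])
    have e12 := mul_le_mul_of_nonneg_left e11 (show 0 ≤ C + C by linarith)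
    refine ⟨p, hp, ?_, ?_⟩
    · have f1 : ((k : ℝ) + 1) * r (G n) (m n) p (p - xt) ≤ B := by linarith
      have f2 := mul_le_mul_of_nonneg_left f1 hθpos.le
      rw [← mul_assoc, mul_comm θ, hK, one_mul] at f2
      linarith
    · have f2 := mul_le_mul_of_nonneg_left e1 hKpos.le
      rw [mul_neg, pow_two, ← mul_assoc, hK, one_mul] at f2
      linarith
  obtain ⟨φ, hφ, hφp⟩ := extraction_forall_of_eventually hsel2
  choose p hp1 hp2 hp3 using hφp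
  have l1 : Tendsto (fun k : ℕ => B * (1 / ((k : ℝ) + 1))) atTop (𝓝 0) := by
    simpa using hθ.const_mul B
  have l2 : Tendsto (fun k : ℕ => 2 * (1 / ((k : ℝ) + 1))) atTop (𝓝 0) := by
    simpa using hθ.const_mul 2
  refine ⟨_, fun k => ys (G (φ k)) (m (φ k)) (p k), fun k => ws (G (φ k)) (m (φ k)) (p k),
    hxt φ p hφ.tendsto_atTop hp1, fun k => hys _ _ _, fun k => (hws _ _ _ (hP _ _ (hp1 k))).1,
    fun k => hyB _ _ _ (hP _ _ (hp1 k)),
    fun k => (hws _ _ _ (hP _ _ (hp1 k))).2.1.trans (by linarith), fun ε hε => ?_, fun ε hε => ?_⟩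
  · filter_upwards [l1.eventually (gt_mem_nhds (show 0 < ε / 2 by linarith)),
      (hLs xt φ p hφ.tendsto_atTop hp1).eventually
        (lt_mem_nhds (show -(ε / 2) < 0 by linarith))] with k e1 e2
    have e3 := hp2 k
    have e5 := hrn (G (φ k)) (m (φ k)) _ (hP _ _ (hp1 k))
    simp only [r, add_apply, map_sub] at e2 e3 e5 ⊢
    linarith
  · filter_upwards [l2.eventually (gt_mem_nhds (show 0 < ε / 2 by linarith)),
      (hLs a φ p hφ.tendsto_atTop hp1).eventually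
        (lt_mem_nhds (show -(ε / 2) < 0 by linarith))] with k e1 e2
    have e3 := hp3 k
    have e5 := hrn (G (φ k)) (m (φ k)) _ (hP _ _ (hp1 k))
    simp only [r, add_apply, map_sub] at e2 e3 e5 ⊢
    linarith

end Multi438
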