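import Pool.Agent.P.MP_438bde_an.HCore0

/-! The decomposition lemma for T plus a finite rank nonnegative form. -/

open Filter Topology Metric Set

namespace Multi438

variable {X : Type*} [NormedAddCommGroup X] [NormedSpace ℝ X]

/-- The finite rank map `x ↦ μ ∑ g(x) g`. -/
noncomputable def Lq (μ : ℝ) (G : Finset (X →L[ℝ] ℝ)) (x : X) : X →L[ℝ] ℝ :=
  ∑ g ∈ G, (μ * g x) • g

theorem Lq_apply (μ : ℝ) (G : Finset (X →L[ℝ] ℝ)) (x v : X) :
    Lq μ G x v = ∑ g ∈ G, μ * g x * g v := by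
  simp [Lq]

theorem Lq_sub (μ : ℝ) (G : Finset (X →L[ℝ] ℝ)) (x x' : X) :
    Lq μ G x (x - x') - Lq μ G x' (x - x') = ∑ g ∈ G, μ * g (x - x') ^ 2 := by
  rw [Lq_apply, Lq_apply, ← Finset.sum_sub_distrib]
  refine Finset.sum_congr rfl fun g _ => ?_
  rw [map_sub]
  ring

theorem Lq_mono {μ : ℝ} (hμ : 0 ≤ μ) (G : Finset (X →L[ℝ] ℝ)) (x x' : X) :
    Lq μ G x' (x - x') ≤ Lq μ G x (x - x') := by
  have := Lq_sub μ G x x'
  have h2 : 0 ≤ ∑ g ∈ G, μ * g (x - x') ^ 2 := Finset.sum_nonneg fun g _ => by positivity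
  linarith

theorem Lq_self {μ : ℝ} (hμ : 0 ≤ μ) (G : Finset (X →L[ℝ] ℝ)) (x : X) : 0 ≤ Lq μ G x x := by
  rw [Lq_apply]
  refine Finset.sum_nonneg fun g _ => ?_
  rw [mul_assoc]
  exact mul_nonneg hμ (mul_self_nonneg _)

theorem Lq_norm {μ : ℝ} (hμ : 0 ≤ μ) (G : Finset (X →L[ℝ] ℝ)) (x : X) :
    ‖Lq μ G x‖ ≤ μ * (∑ g ∈ G, ‖g‖ ^ 2) * ‖x‖ := by
  refine (norm_sum_le _ _).trans ?_
  rw [Finset.mul_sum, Finset.sum_mul]
  refine Finset.sum_le_sum fun g _ => ?_
  rw [norm_smul, norm_mul, Real.norm_eq_abs, abs_of_nonneg hμ]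
  have := mul_le_mul_of_nonneg_right (mul_le_mul_of_nonneg_left (g.le_opNorm x) hμ)
    (norm_nonneg g)
  linarith

theorem Lq_tendsto (μ : ℝ) (G : Finset (X →L[ℝ] ℝ)) {u u' : ℕ → X} {v v' : X}
    (hu : ∀ f : X →L[ℝ] ℝ, Tendsto (fun j => f (u j)) atTop (𝓝 (f v)))
    (hu' : ∀ f : X →L[ℝ] ℝ, Tendsto (fun j => f (u' j)) atTop (𝓝 (f v'))) :
    Tendsto (fun j => Lq μ G (u j) (u' j)) atTop (𝓝 (Lq μ G v v')) := by
  simp only [Lq_apply]
  exact tendsto_finsetSum _ fun g _ => ((hu g).const_mul μ).mul (hu' g)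

theorem decompL0
    (hrefl : ∀ φ : (X →L[ℝ] ℝ) →L[ℝ] ℝ, ∃ x : X, ∀ f : X →L[ℝ] ℝ, φ f = f x)
    (T : X → Set (X →L[ℝ] ℝ))
    (hmon : ∀ x y : X, ∀ f ∈ T x, ∀ g ∈ T y, 0 ≤ (f - g) (x - y))
    (hmax : ∀ (x : X) (f : X →L[ℝ] ℝ),
      (∀ y : X, ∀ g ∈ T y, 0 ≤ (f - g) (x - y)) → f ∈ T x)
    (y0 : X →L[ℝ] ℝ) (h0 : y0 ∈ T 0) (C : ℝ) (hC : ‖y0‖ + 1 ≤ C) (μ : ℝ) (hμ : 0 ≤ μ)
    (G : Finset (X →L[ℝ] ℝ)) (p : X) :
    ∃ x : X, ∃ y ∈ T x, ‖y + Lq μ G x‖ ≤ C ∧ (y + Lq μ G x) (p - x) = C * ‖p - x‖ := by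
  have hC0 : 0 ≤ C := by linarith [norm_nonneg y0]
  let S : X → Set (X →L[ℝ] ℝ) := fun x =>
    {w | ‖w - Lq μ G x‖ ≤ C ∧ C * ‖x - p‖ ≤ (w - Lq μ G x) (x - p)}
  obtain ⟨x, y, hy, w, hw, hyw⟩ := core0 hrefl T S hmon hmax
    (fun x _ => by
      intro w hw w' hw' a b ha hb hab
      have e : a • w + b • w' - Lq μ G x = a • (w - Lq μ G x) + b • (w' - Lq μ G x) := by
        rw [smul_sub, smul_sub, sub_add_sub_comm, ← add_smul, hab, one_smul]
      refine ⟨?_, ?_⟩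
      · rw [e]
        exact mem_closedBall_zero_iff.mp (convex_closedBall 0 C (mem_closedBall_zero_iff.mpr hw.1)
          (mem_closedBall_zero_iff.mpr hw'.1) ha hb hab)
      · rw [e]
        have e1 := mul_le_mul_of_nonneg_left hw.2 ha
        have e2 := mul_le_mul_of_nonneg_left hw'.2 hb
        have e3 : C * ‖x - p‖ = a * (C * ‖x - p‖) + b * (C * ‖x - p‖) := by
          rw [← add_mul, hab, one_mul]
        simp only [add_apply, smul_apply, smul_eq_mul]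
        linarith)
    (fun R => by
      refine ⟨C + μ * (∑ g ∈ G, ‖g‖ ^ 2) * R, fun x hx _ => ?_⟩
      obtain ⟨j, hj1, hj2⟩ := exists_dual_vector'' ℝ (x - p)
      have hj2' : j (x - p) = ‖x - p‖ := hj2
      have hn : ‖C • j‖ ≤ C := by
        rw [norm_smul, Real.norm_eq_abs, abs_of_nonneg hC0]
        exact mul_le_of_le_one_right hC0 hj1
      refine ⟨C • j + Lq μ G x, ⟨?_, ?_⟩, ?_⟩
      · rwa [add_sub_cancel_right]
      · rw [add_sub_cancel_right, smul_apply, hj2', smul_eq_mul]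
      · refine (norm_add_le _ _).trans (add_le_add hn ((Lq_norm hμ G x).trans ?_))
        exact mul_le_mul_of_nonneg_left hx
          (mul_nonneg hμ (Finset.sum_nonneg fun g _ => sq_nonneg _)))
    (by
      intro u v y w w0 _ hu _ _ hw hw0 hε
      have hL : ∀ x, Tendsto (fun j => Lq μ G (u j) x) atTop (𝓝 (Lq μ G v x)) := fun x =>
        Lq_tendsto μ G hu fun f => tendsto_const_nhds
      have hL0 : Tendsto (fun j => Lq μ G (u j) (u j - v)) atTop (𝓝 0) := by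
        have := Lq_tendsto μ G (u' := fun j => u j - v) (v' := 0) hu fun f => by
          simpa using (hu f).sub (tendsto_const_nhds (x := f v))
        simpa using this
      have hj : ∀ x, Tendsto (fun j => (w j - Lq μ G (u j)) x) atTop
          (𝓝 ((w0 - Lq μ G v) x)) := fun x => (hw0 x).sub (hL x)
      obtain ⟨g, hg1, hg2⟩ := exists_dual_vector'' ℝ (v - p)
      have hg2' : g (v - p) = ‖v - p‖ := hg2
      have hgl : Tendsto (fun j => C * g (u j - p)) atTop (𝓝 (C * ‖v - p‖)) := by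
        rw [← hg2']
        simp only [map_sub]
        exact ((hu g).sub tendsto_const_nhds).const_mul C
      have hlow : ∀ j, C * g (u j - p) - (w j - Lq μ G (u j)) (v - p) + Lq μ G (u j) (u j - v) ≤
          w j (u j - v) := fun j => by
        have e1 := (hw j).2
        have e2 := mul_le_mul_of_nonneg_left (apply_le_mul hg1 (u j - p)) hC0
        simp only [sub_apply, map_sub] at e1 e2 ⊢
        linarith
      have hn : ‖w0 - Lq μ G v‖ ≤ C := by
        refine ContinuousLinearMap.opNorm_le_bound _ hC0 fun x => ?_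
        refine le_of_tendsto' (hj x).norm fun j => ?_
        exact ((w j - Lq μ G (u j)).le_opNorm x).trans
          (mul_le_mul_of_nonneg_right (hw j).1 (norm_nonneg _))
      have hl := (hgl.sub (hj (v - p))).add hL0
      refine ⟨⟨hn, le_of_forall_pos_le_add fun ε hε0 => ?_⟩, ?_⟩
      · have := le_of_tendsto hl (b := ε) (by
          filter_upwards [hε ε hε0] with j hj
          exact (hlow j).trans hj)
        linarith
      · have e0 := apply_le_mul hn (v - p)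
        rw [tendsto_order]
        refine ⟨fun a ha => ?_, fun a ha => ?_⟩
        · filter_upwards [hl.eventually (lt_mem_nhds (show a < _ by linarith))] with j hj
          exact hj.trans_le (hlow j)
        · filter_upwards [hε (a / 2) (by linarith)] with j hj
          linarith)
    (2 * C * ‖p‖ + 1)
    (fun x y hy w hw hx => by
      have e1 := hmon _ _ _ hy _ h0
      have e2 := neg_norm_mul_le_apply y0 x
      have e3 := hw.2
      have e4 := neg_mul_le_apply hw.1 p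
      have e5 := Lq_self hμ G x
      have e6 := mul_le_mul_of_nonneg_left (norm_sub_norm_le x p) hC0
      have e7 := mul_le_mul_of_nonneg_right hC (norm_nonneg x)
      simp only [sub_zero, sub_apply, add_apply, map_sub] at e1 e3 e4 ⊢
      nlinarith)
  have e : y + Lq μ G x = -(w - Lq μ G x) := by
    rw [eq_neg_of_add_eq_zero_left hyw]
    abel
  refine ⟨x, y, hy, by rw [e, norm_neg]; exact hw.1, ?_⟩
  have e1 := hw.2
  have e2 := apply_le_mul hw.1 (x - p)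
  rw [e, norm_sub_rev p x, neg_apply, ← map_neg, neg_sub]
  linarith

theorem Lq_add (μ : ℝ) (G : Finset (X →L[ℝ] ℝ)) (x x' : X) :
    Lq μ G (x + x') = Lq μ G x + Lq μ G x' := by
  ext v
  simp only [add_apply, Lq_apply, map_add, ← Finset.sum_add_distrib]
  exact Finset.sum_congr rfl fun g _ => by ring

theorem decompL
    (hrefl : ∀ φ : (X →L[ℝ] ℝ) →L[ℝ] ℝ, ∃ x : X, ∀ f : X →L[ℝ] ℝ, φ f = f x)
    (T : X → Set (X →L[ℝ] ℝ))
    (hmon : ∀ x y : X, ∀ f ∈ T x, ∀ g ∈ T y, 0 ≤ (f - g) (x - y))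
    (hmax : ∀ (x : X) (f : X →L[ℝ] ℝ),
      (∀ y : X, ∀ g ∈ T y, 0 ≤ (f - g) (x - y)) → f ∈ T x)
    (x0 : X) (y0 : X →L[ℝ] ℝ) (h0 : y0 ∈ T x0) (C : ℝ) (μ : ℝ) (hμ : 0 ≤ μ)
    (G : Finset (X →L[ℝ] ℝ)) (hC : 3 * ‖y0 + Lq μ G x0‖ + 1 ≤ C) (p : X) :
    ∃ x : X, ∃ y ∈ T x, ‖y + Lq μ G x‖ ≤ C ∧ (y + Lq μ G x) (p - x) = C * ‖p - x‖ ∧
      ‖p - x‖ ≤ 2 * ‖p - x0‖ := by
  have hn0 := norm_nonneg (y0 + Lq μ G x0)
  obtain ⟨x, y, hy, h1, h2⟩ := decompL0 hrefl (fun x => {y | y - Lq μ G x0 ∈ T (x + x0)})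
    (fun x x' f hf g hg => by
      have := hmon _ _ _ hf _ hg
      rwa [sub_sub_sub_cancel_right, add_sub_add_right_eq_sub] at this)
    (fun x f hf => hmax _ _ fun x' g hg => by
      have := hf (x' - x0) (g + Lq μ G x0) (by simpa using hg)
      have e1 : f - (g + Lq μ G x0) = f - Lq μ G x0 - g := by abel
      have e2 : x - (x' - x0) = x + x0 - x' := by abel
      rwa [e1, e2] at this)
    (y0 + Lq μ G x0) (by simpa using h0) C (by linarith) μ hμ G (p - x0)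
  have e1 : y - Lq μ G x0 + Lq μ G (x + x0) = y + Lq μ G x := by
    rw [Lq_add]
    abel
  have e2 : p - (x + x0) = p - x0 - x := by abel
  refine ⟨x + x0, y - Lq μ G x0, hy, by rwa [e1], by rwa [e1, e2], ?_⟩
  rw [e2]
  have f1 := hmon _ _ _ hy _ h0
  rw [add_sub_cancel_right] at f1
  have f2 := Lq_self hμ G x
  have f3 := apply_le_mul h1 (p - x0)
  have f4 := neg_norm_mul_le_apply (y0 + Lq μ G x0) x
  have f5 : ‖x‖ ≤ ‖p - x0‖ + ‖p - x0 - x‖ := by
    have := norm_sub_le (p - x0) (p - x0 - x)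
    rwa [sub_sub_cancel] at this
  have f6 := mul_le_mul_of_nonneg_left f5 hn0
  rw [map_sub] at h2
  simp only [sub_apply, add_apply] at f1 f4 h2 f3
  have g1 := norm_nonneg (p - x0)
  have g2 := norm_nonneg (p - x0 - x)
  have g3 : C * ‖p - x0 - x‖ ≤ C * ‖p - x0‖ +
      ‖y0 + Lq μ G x0‖ * (‖p - x0‖ + ‖p - x0 - x‖) := by linarith
  by_contra hlt
  push Not at hlt
  nlinarith

end Multi438
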