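import Mathlib

/-! Definitions for the statement on relatively bounded perturbations. -/

open Filter Topology

namespace Multi438

/-- Every continuous functional on the dual is the evaluation at a point. -/
def Reflexive (X : Type) [NormedAddCommGroup X] [NormedSpace ℝ X] : Prop :=
  ∀ φ : StrongDual ℝ (StrongDual ℝ X), ∃ x : X, ∀ f : StrongDual ℝ X, φ f = f x

variable {X : Type} [NormedAddCommGroup X] [NormedSpace ℝ X]

/-- `T` is monotone, and every pair monotonically related to its graph lies in its graph. -/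
def MaxMono (T : X → Set (StrongDual ℝ X)) : Prop :=
  (∀ x y : X, ∀ f ∈ T x, ∀ g ∈ T y, 0 ≤ (f - g) (x - y)) ∧
    ∀ (x : X) (f : StrongDual ℝ X), (∀ y : X, ∀ g ∈ T y, 0 ≤ (f - g) (x - y)) → f ∈ T x

/-- On each ball, `S` has a relative bound less than `κ` with respect to `T`. -/
def RelBound (κ : ℝ) (T S : X → Set (StrongDual ℝ X)) : Prop :=
  ∀ R : ℝ, ∃ k : ℝ, k < κ ∧ ∃ M : ℝ, ∀ x : X, ‖x‖ ≤ R → ∀ y ∈ T x,
    ∃ w ∈ S x, ‖w‖ ≤ k * ‖y‖ + M

/-- Weak convergence of a sequence. -/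
def WeakTo {Y : Type} [NormedAddCommGroup Y] [NormedSpace ℝ Y] (u : ℕ → Y) (v : Y) : Prop :=
  ∀ f : StrongDual ℝ Y, Tendsto (fun j => f (u j)) atTop (𝓝 (f v))

/-- `S` is generalized pseudomonotone along sequences on which `T` has bounded values. -/
def GenPseudo (T S : X → Set (StrongDual ℝ X)) : Prop :=
  ∀ (u : ℕ → X) (v : X) (y w : ℕ → StrongDual ℝ X) (w0 : StrongDual ℝ X),
    WeakTo u v → (∀ j, y j ∈ T (u j)) → (∃ C : ℝ, ∀ j, ‖y j‖ ≤ C) → (∀ j, w j ∈ S (u j)) →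
    WeakTo w w0 → (∀ ε : ℝ, 0 < ε → ∀ᶠ j in atTop, w j (u j - v) ≤ ε) →
    w0 ∈ S v ∧ Tendsto (fun j => w j (u j - v)) atTop (𝓝 0)

end Multi438
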