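import Pool.Agent.P.MP_438bde_an.HBase

/-! Limit lemmas for generalized T-pseudomonotone maps. -/

open Filter Topology Metric Set

namespace Multi438

variable {X : Type*} [NormedAddCommGroup X] [NormedSpace ℝ X]

/-- Generalized pseudomonotonicity of `S` along the graph of `T`. -/
def GP (T S : X → Set (X →L[ℝ] ℝ)) : Prop :=
  ∀ (u : ℕ → X) (v : X) (y w : ℕ → (X →L[ℝ] ℝ)) (w0 : X →L[ℝ] ℝ) (C : ℝ),
    (∀ f : X →L[ℝ] ℝ, Tendsto (fun j => f (u j)) atTop (𝓝 (f v))) →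
    (∀ j, y j ∈ T (u j)) → (∀ j, ‖y j‖ ≤ C) → (∀ j, w j ∈ S (u j)) →
    (∀ x, Tendsto (fun j => w j x) atTop (𝓝 (w0 x))) →
    (∀ ε : ℝ, 0 < ε → ∀ᶠ j in atTop, w j (u j - v) ≤ ε) →
    w0 ∈ S v ∧ Tendsto (fun j => w j (u j - v)) atTop (𝓝 0)

theorem dual_refl
    (hrefl : ∀ φ : (X →L[ℝ] ℝ) →L[ℝ] ℝ, ∃ x : X, ∀ f : X →L[ℝ] ℝ, φ f = f x)
    (Φ : ((X →L[ℝ] ℝ) →L[ℝ] ℝ) →L[ℝ] ℝ) :
    ∃ f : X →L[ℝ] ℝ, ∀ φ : (X →L[ℝ] ℝ) →L[ℝ] ℝ, Φ φ = φ f := by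
  refine ⟨Φ.comp (NormedSpace.inclusionInDoubleDual ℝ X), fun φ => ?_⟩
  obtain ⟨x, hx⟩ := hrefl φ
  have e : φ = NormedSpace.inclusionInDoubleDual ℝ X x := by
    ext f
    rw [hx]
    rfl
  rw [hx, e]
  rfl

theorem exists_dual_subseq
    (hrefl : ∀ φ : (X →L[ℝ] ℝ) →L[ℝ] ℝ, ∃ x : X, ∀ f : X →L[ℝ] ℝ, φ f = f x)
    (w : ℕ → (X →L[ℝ] ℝ)) (M : ℝ) (hw : ∀ n, ‖w n‖ ≤ M) :
    ∃ (φ : ℕ → ℕ) (w0 : X →L[ℝ] ℝ), StrictMono φ ∧ ‖w0‖ ≤ M ∧
      ∀ x, Tendsto (fun j => w (φ j) x) atTop (𝓝 (w0 x)) := by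
  obtain ⟨φ, w0, hφ, h⟩ := exists_weak_subseq (dual_refl hrefl) w M hw
  have h' : ∀ x, Tendsto (fun j => w (φ j) x) atTop (𝓝 (w0 x)) := fun x =>
    h (ContinuousLinearMap.apply ℝ ℝ x)
  refine ⟨φ, w0, hφ, ?_, h'⟩
  refine ContinuousLinearMap.opNorm_le_bound _ ((norm_nonneg _).trans (hw 0)) fun x => ?_
  refine le_of_tendsto' (h' x).norm fun j => ?_
  exact ((w (φ j)).le_opNorm x).trans (mul_le_mul_of_nonneg_right (hw _) (norm_nonneg _))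

theorem gp_self (T : X → Set (X →L[ℝ] ℝ))
    (hmon : ∀ x y : X, ∀ f ∈ T x, ∀ g ∈ T y, 0 ≤ (f - g) (x - y))
    (hmax : ∀ (x : X) (f : X →L[ℝ] ℝ),
      (∀ y : X, ∀ g ∈ T y, 0 ≤ (f - g) (x - y)) → f ∈ T x) : GP T T := by
  intro u v y w w0 C hu _ _ hw hw0 hε
  have hmem : w0 ∈ T v := by
    refine hmax _ _ fun a b hb => ?_
    refine le_of_forall_pos_le_add fun ε hε0 => ?_
    have l1 : Tendsto (fun j => w j (v - a) - (b (u j) - b a) + ε) atTop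
        (𝓝 (w0 (v - a) - (b v - b a) + ε)) :=
      ((hw0 _).sub ((hu b).sub tendsto_const_nhds)).add tendsto_const_nhds
    have := ge_of_tendsto l1 (b := 0) (by
      filter_upwards [hε ε hε0] with j hj
      have e1 := hmon _ _ _ (hw j) _ hb
      simp only [sub_apply, map_sub] at e1 hj ⊢
      linarith)
    simp only [sub_apply, map_sub] at this ⊢
    linarith
  refine ⟨hmem, ?_⟩
  have l0 : Tendsto (fun j => w0 (u j) - w0 v) atTop (𝓝 0) := by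
    simpa using (hu w0).sub (tendsto_const_nhds (x := w0 v))
  rw [tendsto_order]
  refine ⟨fun a ha => ?_, fun a ha => ?_⟩
  · filter_upwards [l0.eventually (lt_mem_nhds ha)] with j hj
    have e1 := hmon _ _ _ (hw j) _ hmem
    simp only [sub_apply, map_sub] at e1 ⊢
    linarith
  · filter_upwards [hε (a / 2) (by linarith)] with j hj
    linarith

theorem gp_low
    (hrefl : ∀ φ : (X →L[ℝ] ℝ) →L[ℝ] ℝ, ∃ x : X, ∀ f : X →L[ℝ] ℝ, φ f = f x)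
    {T S : X → Set (X →L[ℝ] ℝ)} (hgp : GP T S) (u : ℕ → X) (v : X)
    (y w : ℕ → (X →L[ℝ] ℝ)) (C B : ℝ)
    (hu : ∀ f : X →L[ℝ] ℝ, Tendsto (fun j => f (u j)) atTop (𝓝 (f v)))
    (hy : ∀ j, y j ∈ T (u j)) (hC : ∀ j, ‖y j‖ ≤ C) (hw : ∀ j, w j ∈ S (u j))
    (hB : ∀ j, ‖w j‖ ≤ B) (η : ℝ) (hη : 0 < η) : ∀ᶠ j in atTop, -η ≤ w j (u j - v) := by
  by_contra hcon
  rw [not_eventually] at hcon
  obtain ⟨ψ, hψ, hψp⟩ := extraction_of_frequently_atTop hcon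
  push Not at hψp
  obtain ⟨χ, w0, hχ, -, hw0⟩ := exists_dual_subseq hrefl (fun k => w (ψ k)) B fun k => hB _
  have hlim := (hgp (fun k => u (ψ (χ k))) v (fun k => y (ψ (χ k))) (fun k => w (ψ (χ k))) w0 C
    (fun f => (hu f).comp (hψ.comp hχ).tendsto_atTop) (fun k => hy _) (fun k => hC _)
    (fun k => hw _) hw0
    (fun ε hε => Eventually.of_forall fun k => by linarith [hψp (χ k)])).2
  have := le_of_tendsto' hlim fun k => (hψp (χ k)).le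
  linarith

theorem gp_closed {T S : X → Set (X →L[ℝ] ℝ)} (hgp : GP T S) (v : X) (y : X →L[ℝ] ℝ)
    (hy : y ∈ T v) : IsClosed (S v) := by
  refine isSeqClosed_iff_isClosed.mp fun w w0 hw hw0 => ?_
  refine (hgp (fun _ => v) v (fun _ => y) w w0 ‖y‖ (fun f => tendsto_const_nhds) (fun _ => hy)
    (fun _ => le_rfl) hw (fun x => ?_) (fun ε hε => Eventually.of_forall fun j => ?_)).1
  · exact ((ContinuousLinearMap.apply ℝ ℝ x).continuous.tendsto w0).comp hw0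
  · simpa using hε.le

theorem weak_compact
    (hrefl : ∀ φ : (X →L[ℝ] ℝ) →L[ℝ] ℝ, ∃ x : X, ∀ f : X →L[ℝ] ℝ, φ f = f x)
    (A : Set (X →L[ℝ] ℝ)) (hc : Convex ℝ A) (hcl : IsClosed A) (B : ℝ) :
    IsCompact (WeakDual.toStrongDual ⁻¹' (A ∩ closedBall 0 B) : Set (WeakDual ℝ X)) := by
  have hK := WeakDual.isCompact_closedBall (𝕜 := ℝ) (E := X) 0 B
  have hA : IsClosed (WeakDual.toStrongDual ⁻¹' A : Set (WeakDual ℝ X)) := by
    rw [← isOpen_compl_iff, isOpen_iff_forall_mem_open]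
    intro w hw
    obtain ⟨φ, u, h1, h2⟩ := geometric_hahn_banach_point_closed hc hcl hw
    obtain ⟨x, hx⟩ := hrefl φ
    refine ⟨{w' : WeakDual ℝ X | w' x < u}, fun w' hw' hA => ?_,
      isOpen_lt (WeakDual.eval_continuous x) continuous_const, ?_⟩
    · have := h2 _ hA
      rw [hx] at this
      exact lt_asymm hw' this
    · rw [hx] at h1
      exact h1
  rw [preimage_inter]
  exact hK.inter_left hA

theorem max_convex (T : X → Set (X →L[ℝ] ℝ))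
    (hmon : ∀ x y : X, ∀ f ∈ T x, ∀ g ∈ T y, 0 ≤ (f - g) (x - y))
    (hmax : ∀ (x : X) (f : X →L[ℝ] ℝ),
      (∀ y : X, ∀ g ∈ T y, 0 ≤ (f - g) (x - y)) → f ∈ T x) (v : X) : Convex ℝ (T v) := by
  intro f hf g hg a b ha hb hab
  refine hmax _ _ fun x y hy => ?_
  have e1 := mul_nonneg ha (hmon _ _ _ hf _ hy)
  have e2 := mul_nonneg hb (hmon _ _ _ hg _ hy)
  have e3 : y (v - x) = a * y (v - x) + b * y (v - x) := by rw [← add_mul, hab, one_mul]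
  simp only [sub_apply, add_apply, smul_apply, smul_eq_mul] at e1 e2 ⊢
  linarith

/-- The last step: good sequences for every test point give a zero. -/
theorem final_zero
    (hrefl : ∀ φ : (X →L[ℝ] ℝ) →L[ℝ] ℝ, ∃ x : X, ∀ f : X →L[ℝ] ℝ, φ f = f x)
    (T S : X → Set (X →L[ℝ] ℝ))
    (hmon : ∀ x y : X, ∀ f ∈ T x, ∀ g ∈ T y, 0 ≤ (f - g) (x - y))
    (hmax : ∀ (x : X) (f : X →L[ℝ] ℝ),
      (∀ y : X, ∀ g ∈ T y, 0 ≤ (f - g) (x - y)) → f ∈ T x)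
    (hcv : ∀ x, (T x).Nonempty → Convex ℝ (S x)) (hgp : GP T S) (v : X) (B : ℝ)
    (h : ∀ a : X, ∃ (u : ℕ → X) (y w : ℕ → (X →L[ℝ] ℝ)),
      (∀ f : X →L[ℝ] ℝ, Tendsto (fun j => f (u j)) atTop (𝓝 (f v))) ∧
      (∀ j, y j ∈ T (u j)) ∧ (∀ j, w j ∈ S (u j)) ∧ (∀ j, ‖y j‖ ≤ B) ∧ (∀ j, ‖w j‖ ≤ B) ∧
      (∀ ε : ℝ, 0 < ε → ∀ᶠ j in atTop, (y j + w j) (u j - v) ≤ ε) ∧
      (∀ ε : ℝ, 0 < ε → ∀ᶠ j in atTop, (y j + w j) (u j - a) ≤ ε)) :
    ∃ y ∈ T v, ∃ w ∈ S v, y + w = 0 := by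
  have hT := gp_self T hmon hmax
  have key : ∀ a : X, ∃ y ∈ T v, ∃ w ∈ S v, ‖y‖ ≤ B ∧ ‖w‖ ≤ B ∧ y a + w a ≤ 0 := by
    intro a
    obtain ⟨u, y, w, hu, hy, hw, hyB, hwB, h1, h2⟩ := h (v - a)
    have ly := gp_low hrefl hT u v y y B B hu hy hyB hy hyB
    have lw := gp_low hrefl hgp u v y w B B hu hy hyB hw hwB
    obtain ⟨φ, y0, hφ, hy0B, hy0⟩ := exists_dual_subseq hrefl y B hyB
    obtain ⟨χ, w0, hχ, hw0B, hw0⟩ := exists_dual_subseq hrefl (fun k => w (φ k)) B fun k => hwB _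
    have hψ : Tendsto (fun k => φ (χ k)) atTop atTop := (hφ.comp hχ).tendsto_atTop
    have hy0' : ∀ x, Tendsto (fun k => y (φ (χ k)) x) atTop (𝓝 (y0 x)) := fun x =>
      (hy0 x).comp hχ.tendsto_atTop
    obtain ⟨m1, t1⟩ := hT (fun k => u (φ (χ k))) v (fun k => y (φ (χ k)))
      (fun k => y (φ (χ k))) y0 B (fun f => (hu f).comp hψ) (fun k => hy _) (fun k => hyB _)
      (fun k => hy _) hy0' (fun ε hε => hψ.eventually (p := fun j => y j (u j - v) ≤ ε) (by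
        filter_upwards [h1 (ε / 2) (by linarith), lw (ε / 2) (by linarith)] with j e1 e2
        simp only [add_apply] at e1
        linarith))
    obtain ⟨m2, t2⟩ := hgp (fun k => u (φ (χ k))) v (fun k => y (φ (χ k)))
      (fun k => w (φ (χ k))) w0 B (fun f => (hu f).comp hψ) (fun k => hy _) (fun k => hyB _)
      (fun k => hw _) hw0 (fun ε hε => hψ.eventually (p := fun j => w j (u j - v) ≤ ε) (by
        filter_upwards [h1 (ε / 2) (by linarith), ly (ε / 2) (by linarith)] with j e1 e2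
        simp only [add_apply] at e1
        linarith))
    refine ⟨y0, m1, w0, m2, hy0B, hw0B, le_of_forall_pos_le_add fun ε hε => ?_⟩
    have l := (t1.add t2).add ((hy0' a).add (hw0 a))
    rw [add_zero, zero_add] at l
    rw [zero_add]
    refine le_of_tendsto l ?_
    filter_upwards [hψ.eventually (h2 ε hε)] with k hk
    simp only [add_apply, map_sub] at hk ⊢
    linarith
  obtain ⟨y1, hy1, w1, hw1, hy1B, hw1B, -⟩ := key 0
  let K1 : Set (WeakDual ℝ X) := WeakDual.toStrongDual ⁻¹' (T v ∩ closedBall 0 B)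
  let K2 : Set (WeakDual ℝ X) := WeakDual.toStrongDual ⁻¹' (S v ∩ closedBall 0 B)
  have c1 := max_convex T hmon hmax v
  have c2 := hcv v ⟨y1, hy1⟩
  have k1 : IsCompact K1 := weak_compact hrefl _ c1 (gp_closed hT v y1 hy1) B
  have k2 : IsCompact K2 := weak_compact hrefl _ c2 (gp_closed hgp v y1 hy1) B
  have d1 : Convex ℝ K1 := (c1.inter (convex_closedBall 0 B)).linear_preimage
    (WeakDual.toStrongDual (𝕜 := ℝ) (E := X)).toLinearMap
  have d2 : Convex ℝ K2 := (c2.inter (convex_closedBall 0 B)).linear_preimage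
    (WeakDual.toStrongDual (𝕜 := ℝ) (E := X)).toLinearMap
  have hmem : ∀ y ∈ T v, ∀ w ∈ S v, ‖y‖ ≤ B → ‖w‖ ≤ B →
      (StrongDual.toWeakDual y, StrongDual.toWeakDual w) ∈ K1 ×ˢ K2 := fun y hy w hw e1 e2 =>
    ⟨⟨hy, mem_closedBall_zero_iff.mpr e1⟩, ⟨hw, mem_closedBall_zero_iff.mpr e2⟩⟩
  obtain ⟨q, hq, hq0⟩ := real_minimax (K1 ×ˢ K2) (univ : Set X)
    (fun (q : WeakDual ℝ X × WeakDual ℝ X) (a : X) => q.1 a + q.2 a)
    ⟨_, hmem y1 hy1 w1 hw1 hy1B hw1B⟩ (d1.prod d2) (k1.prod k2) convex_univ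
    (fun a => ((WeakDual.eval_continuous a).comp continuous_fst).add
      ((WeakDual.eval_continuous a).comp continuous_snd))
    (fun q => (WeakDual.toStrongDual q.1).continuous.add (WeakDual.toStrongDual q.2).continuous)
    (fun a => ⟨d1.prod d2, fun p _ q _ s t _ _ _ => le_of_eq (by
      change (s • p.1 + t • q.1) a + (s • p.2 + t • q.2) a = _
      change (s * p.1 a + t * q.1 a) + (s * p.2 a + t * q.2 a) = _
      simp only [smul_eq_mul]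
      ring)⟩)
    (fun q => ⟨convex_univ, fun a _ b _ s t _ _ _ => le_of_eq (by
      simp only [map_add, map_smul, smul_eq_mul]
      ring)⟩)
    (fun a _ => by
      obtain ⟨y, hy, w, hw, e1, e2, e3⟩ := key a
      exact ⟨_, hmem y hy w hw e1 e2, e3⟩)
  refine ⟨WeakDual.toStrongDual q.1, hq.1.1, WeakDual.toStrongDual q.2, hq.2.1, ?_⟩
  ext a
  have e1 := hq0 a (mem_univ _)
  have e2 := hq0 (-a) (mem_univ _)
  simp only [map_neg] at e2
  change q.1 a + q.2 a = 0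
  linarith

end Multi438
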