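import Pool.Agent.P.MP_438bde_an.HCore1

/-! The sharp threshold for the relative bound. -/

open Filter Topology Metric Set

namespace Multi438

theorem main_pos {X : Type*} [NormedAddCommGroup X] [NormedSpace ℝ X] (κ : ℝ) (hκ : κ ≤ 1)
    (hrefl : ∀ φ : (X →L[ℝ] ℝ) →L[ℝ] ℝ, ∃ x : X, ∀ f : X →L[ℝ] ℝ, φ f = f x)
    (T S : X → Set (X →L[ℝ] ℝ))
    (hmon : ∀ x y : X, ∀ f ∈ T x, ∀ g ∈ T y, 0 ≤ (f - g) (x - y))
    (hmax : ∀ (x : X) (f : X →L[ℝ] ℝ),
      (∀ y : X, ∀ g ∈ T y, 0 ≤ (f - g) (x - y)) → f ∈ T x)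
    (hcv : ∀ x, (T x).Nonempty → Convex ℝ (S x))
    (hrb : ∀ R : ℝ, ∃ k : ℝ, k < κ ∧ ∃ M : ℝ, ∀ x : X, ‖x‖ ≤ R → ∀ y ∈ T x,
      ∃ w ∈ S x, ‖w‖ ≤ k * ‖y‖ + M)
    (hgp : ∀ (u : ℕ → X) (v : X) (y w : ℕ → (X →L[ℝ] ℝ)) (w0 : X →L[ℝ] ℝ),
      (∀ f : X →L[ℝ] ℝ, Tendsto (fun j => f (u j)) atTop (𝓝 (f v))) →
      (∀ j, y j ∈ T (u j)) → (∃ C : ℝ, ∀ j, ‖y j‖ ≤ C) → (∀ j, w j ∈ S (u j)) →
      (∀ φ : (X →L[ℝ] ℝ) →L[ℝ] ℝ, Tendsto (fun j => φ (w j)) atTop (𝓝 (φ w0))) →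
      (∀ ε : ℝ, 0 < ε → ∀ᶠ j in atTop, w j (u j - v) ≤ ε) →
      w0 ∈ S v ∧ Tendsto (fun j => w j (u j - v)) atTop (𝓝 0))
    (f : X →L[ℝ] ℝ) (R : ℝ)
    (hco : ∀ x : X, ∀ y ∈ T x, ∀ w ∈ S x, R ≤ ‖x‖ → f x < (y + w) x) :
    ∃ x : X, ∃ y ∈ T x, ∃ w ∈ S x, y + w = f := by
  obtain ⟨x, y, hy, w, hw, h⟩ := core1 hrefl T (fun x => {w | w + f ∈ S x}) hmon hmax
    (fun x hx => by
      intro w hw w' hw' a b ha hb hab
      have := hcv x hx hw hw' ha hb hab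
      have e : a • (w + f) + b • (w' + f) = a • w + b • w' + f := by
        rw [smul_add, smul_add, add_add_add_comm, ← add_smul, hab, one_smul]
      rwa [e] at this)
    (fun R => by
      obtain ⟨k, hk, M, hM⟩ := hrb R
      refine ⟨k, hk.trans_le hκ, M + ‖f‖, fun x hx y hy => ?_⟩
      obtain ⟨w, hw, hw2⟩ := hM x hx y hy
      exact ⟨w - f, by simpa using hw, (norm_sub_le _ _).trans (by linarith)⟩)
    (by
      intro u v y w w0 C hu hy hC hw hw0 hε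
      have hf : Tendsto (fun j => f (u j - v)) atTop (𝓝 0) := by
        simp only [map_sub]
        simpa using (hu f).sub (tendsto_const_nhds (x := f v))
      obtain ⟨h1, h2⟩ := hgp u v y (fun j => w j + f) (w0 + f) hu hy ⟨C, hC⟩ hw
        (fun φ => by
          obtain ⟨x, hx⟩ := hrefl φ
          simp only [hx, add_apply]
          exact (hw0 x).add tendsto_const_nhds)
        (fun ε hε0 => by
          filter_upwards [hε (ε / 2) (by positivity),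
            hf.eventually (gt_mem_nhds (show 0 < ε / 2 by positivity))] with j hj1 hj2
          simp only [add_apply]
          linarith)
      refine ⟨h1, ?_⟩
      simpa using h2.sub hf)
    R (fun x y hy w hw hx => by
      have e1 := hco x y hy _ hw hx
      simp only [add_apply] at e1 ⊢
      linarith)
  exact ⟨x, y, hy, w + f, hw, by rw [← add_assoc, h, zero_add]⟩

theorem real_apply (f : ℝ →L[ℝ] ℝ) (x : ℝ) : f x = x * f 1 := by
  have := f.map_smul x 1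
  simpa using this

theorem main_neg (κ : ℝ)
    (h : (∀ φ : (ℝ →L[ℝ] ℝ) →L[ℝ] ℝ, ∃ x : ℝ, ∀ f : ℝ →L[ℝ] ℝ, φ f = f x) →
    ∀ (T S : ℝ → Set (ℝ →L[ℝ] ℝ)),
    (∀ x y : ℝ, ∀ f ∈ T x, ∀ g ∈ T y, 0 ≤ (f - g) (x - y)) →
    (∀ (x : ℝ) (f : ℝ →L[ℝ] ℝ), (∀ y : ℝ, ∀ g ∈ T y, 0 ≤ (f - g) (x - y)) → f ∈ T x) →
    (∀ x, (T x).Nonempty → Convex ℝ (S x)) →
    (∀ R : ℝ, ∃ k : ℝ, k < κ ∧ ∃ M : ℝ, ∀ x : ℝ, ‖x‖ ≤ R → ∀ y ∈ T x,
      ∃ w ∈ S x, ‖w‖ ≤ k * ‖y‖ + M) →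
    (∀ (u : ℕ → ℝ) (v : ℝ) (y w : ℕ → (ℝ →L[ℝ] ℝ)) (w0 : ℝ →L[ℝ] ℝ),
      (∀ f : ℝ →L[ℝ] ℝ, Tendsto (fun j => f (u j)) atTop (𝓝 (f v))) →
      (∀ j, y j ∈ T (u j)) → (∃ C : ℝ, ∀ j, ‖y j‖ ≤ C) → (∀ j, w j ∈ S (u j)) →
      (∀ φ : (ℝ →L[ℝ] ℝ) →L[ℝ] ℝ, Tendsto (fun j => φ (w j)) atTop (𝓝 (φ w0))) →
      (∀ ε : ℝ, 0 < ε → ∀ᶠ j in atTop, w j (u j - v) ≤ ε) →
      w0 ∈ S v ∧ Tendsto (fun j => w j (u j - v)) atTop (𝓝 0)) →
    ∀ (f : ℝ →L[ℝ] ℝ) (R : ℝ),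
    (∀ x : ℝ, ∀ y ∈ T x, ∀ w ∈ S x, R ≤ ‖x‖ → f x < (y + w) x) →
    ∃ x : ℝ, ∃ y ∈ T x, ∃ w ∈ S x, y + w = f) : κ ≤ 1 := by
  by_contra hκ
  push Not at hκ
  obtain ⟨x, y, hy, w, hw, hyw⟩ := h
    (fun φ => ⟨φ (ContinuousLinearMap.id ℝ ℝ), fun f => by
      have e : f = f 1 • ContinuousLinearMap.id ℝ ℝ := by
        ext
        simp
      rw [real_apply f, mul_comm, ← smul_eq_mul, ← map_smul, ← e]⟩)
    (fun x => {y | x = Real.arctan (y 1)}) (fun x => {w | x = Real.arctan (-w 1)})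
    (fun x y f hf g hg => by
      rw [real_apply, show x = _ from hf, show y = _ from hg, sub_apply]
      rcases le_total (f 1) (g 1) with e | e
      · exact mul_nonneg_of_nonpos_of_nonpos (sub_nonpos.mpr (Real.arctan_mono e))
          (sub_nonpos.mpr e)
      · exact mul_nonneg (sub_nonneg.mpr (Real.arctan_mono e)) (sub_nonneg.mpr e))
    (fun x f hf => by
      have key : ∀ t : ℝ, 0 ≤ (x - Real.arctan t) * (f 1 - t) := fun t => by
        have := hf (Real.arctan t) (t • ContinuousLinearMap.id ℝ ℝ) (by simp)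
        rw [real_apply] at this
        simpa using this
      have hc := Real.continuous_arctan.tendsto (f 1)
      refine le_antisymm ?_ ?_
      · refine ge_of_tendsto (hc.mono_left (nhdsWithin_le_nhds (s := Ioi (f 1)))) ?_
        filter_upwards [self_mem_nhdsWithin] with t ht
        have := key t
        have ht' : f 1 < t := ht
        by_contra hlt
        nlinarith [mul_pos (sub_pos.mpr (not_le.mp hlt)) (sub_pos.mpr ht')]
      · refine le_of_tendsto (hc.mono_left (nhdsWithin_le_nhds (s := Iio (f 1)))) ?_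
        filter_upwards [self_mem_nhdsWithin] with t ht
        have := key t
        have ht' : t < f 1 := ht
        by_contra hlt
        nlinarith [mul_pos (sub_pos.mpr (not_le.mp hlt)) (sub_pos.mpr ht')])
    (fun x _ => by
      refine Set.Subsingleton.convex fun w hw w' hw' => ?_
      have := Real.arctan_injective ((show x = _ from hw).symm.trans hw')
      ext
      linarith)
    (fun R => ⟨1, hκ, 0, fun x _ y hy => ⟨-y, by simpa using hy, by simp⟩⟩)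
    (fun u v y w w0 hu _ _ hw hw0 _ => by
      have h1 : Tendsto u atTop (𝓝 v) := hu (ContinuousLinearMap.id ℝ ℝ)
      have h2 : Tendsto (fun j => w j 1) atTop (𝓝 (w0 1)) :=
        hw0 (ContinuousLinearMap.apply ℝ ℝ 1)
      refine ⟨tendsto_nhds_unique h1 ?_, ?_⟩
      · exact ((Real.continuous_arctan.tendsto _).comp h2.neg).congr fun j => (hw j).symm
      · have := (h1.sub (tendsto_const_nhds (x := v))).mul h2
        rw [sub_self, zero_mul] at this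
        exact this.congr fun j => (real_apply _ _).symm)
    (ContinuousLinearMap.id ℝ ℝ) 2
    (fun x y hy w _ hx => by
      have e1 := Real.arctan_lt_pi_div_two (y 1)
      have e2 := Real.neg_pi_div_two_lt_arctan (y 1)
      have e3 := Real.pi_le_four
      rw [show x = _ from hy, Real.norm_eq_abs, le_abs] at hx
      rcases hx with hx | hx <;> linarith)
  have e1 := Real.arctan_injective ((show x = _ from hy).symm.trans hw)
  have e2 := congrArg (fun g : ℝ →L[ℝ] ℝ => g 1) hyw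
  simp only [add_apply, ContinuousLinearMap.id_apply] at e2
  linarith

end Multi438
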