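import Pool.Agent.P.MP_438bde_an.HDec

/-! Galerkin approximations with finitely many sample points and an adapted regularisation. -/

open Filter Topology Metric Set

namespace Multi438

variable {X : Type*} [NormedAddCommGroup X] [NormedSpace ℝ X]

theorem exists_approx_fin (r : X → (X →L[ℝ] ℝ)) (ρ M : ℝ) (hρ : 0 ≤ ρ)
    (hM : ∀ p, ‖p‖ ≤ ρ → ‖r p‖ ≤ M) (hpos : ∀ p, ‖p‖ = ρ → 0 < r p p)
    (F : Submodule ℝ X) [FiniteDimensional ℝ F] (δ : ℝ) (hδ : 0 < δ) :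
    ∃ z ∈ F, ∃ P : Set X, P.Finite ∧ P.Nonempty ∧ (∀ p ∈ P, ‖p‖ ≤ ρ ∧ ‖p - z‖ < δ) ∧
      ∃ ζ : X →L[ℝ] ℝ, ‖ζ‖ ≤ M ∧ (∀ w ∈ F, ζ w = 0) ∧ ∀ v, ∃ p ∈ P, r p v ≤ ζ v := by
  have hn : Continuous fun y : F => ‖(y : X)‖ := continuous_subtype_val.norm
  have hev : ∀ (x : F) (c : X →L[ℝ] ℝ), 0 < c x → ∀ᶠ y : F in 𝓝 x, 0 < c y := fun x c hc =>
    (c.continuous.comp continuous_subtype_val).continuousAt.eventually (lt_mem_nhds hc)
  let W : F → Set F := fun x => {y | ‖(x : X) - y‖ < δ ∧ (ρ < ‖(y : X)‖ → 0 < r x y)}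
  have hW : ∀ x ∈ closedBall (0 : F) ρ, interior (W x) ∈ 𝓝 x := by
    intro x hx
    have hx' : ‖(x : X)‖ ≤ ρ := mem_closedBall_zero_iff.mp hx
    rw [interior_mem_nhds]
    have hnear : ∀ᶠ y : F in 𝓝 x, ‖(x : X) - y‖ < δ := by
      have hc : Continuous fun y : F => ‖(x : X) - y‖ :=
        (continuous_const.sub continuous_subtype_val).norm
      exact hc.continuousAt.eventually (gt_mem_nhds (by simpa using hδ))
    rcases hx'.lt_or_eq with h | h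
    · filter_upwards [hnear, hn.continuousAt.eventually (gt_mem_nhds h)] with y hy hy2
      exact ⟨hy, fun h' => absurd h' hy2.not_gt⟩
    · filter_upwards [hnear, hev x _ (hpos _ h)] with y hy hy2
      exact ⟨hy, fun _ => hy2⟩
  obtain ⟨P0, hP0, hcov⟩ := (isCompact_closedBall (0 : F) ρ).elim_nhds_subcover _ hW
  let t : F → Set (X →L[ℝ] ℝ) := fun z =>
    {ζ | (‖(z : X)‖ ≤ ρ → ‖ζ‖ ≤ M ∧ ∀ v, ∃ p ∈ P0, ‖(p : X) - z‖ < δ ∧ r p v ≤ ζ v) ∧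
      (ρ < ‖(z : X)‖ → 0 < ζ z)}
  have ht : ∀ z, Convex ℝ (t z) := by
    intro z ζ hζ ζ' hζ' a b ha hb hab
    refine ⟨fun hz => ⟨?_, fun v => ?_⟩, fun hz => ?_⟩
    · exact mem_closedBall_zero_iff.mp (convex_closedBall 0 M
        (mem_closedBall_zero_iff.mpr (hζ.1 hz).1) (mem_closedBall_zero_iff.mpr (hζ'.1 hz).1)
        ha hb hab)
    · simp only [add_apply, smul_apply, smul_eq_mul]
      rcases le_total (ζ v) (ζ' v) with h | h
      · obtain ⟨p, hp0, hp, hpv⟩ := (hζ.1 hz).2 v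
        refine ⟨p, hp0, hp, hpv.trans ?_⟩
        have e3 : ζ v = a * ζ v + b * ζ v := by rw [← add_mul, hab, one_mul]
        nlinarith [mul_le_mul_of_nonneg_left h hb]
      · obtain ⟨p, hp0, hp, hpv⟩ := (hζ'.1 hz).2 v
        refine ⟨p, hp0, hp, hpv.trans ?_⟩
        have e3 : ζ' v = a * ζ' v + b * ζ' v := by rw [← add_mul, hab, one_mul]
        nlinarith [mul_le_mul_of_nonneg_left h ha]
    · simp only [add_apply, smul_apply, smul_eq_mul]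
      have h1 := hζ.2 hz
      have h2 := hζ'.2 hz
      rcases ha.lt_or_eq with h | h
      · nlinarith [mul_pos h h1, mul_nonneg hb h2.le]
      · rw [← h, zero_add] at hab
        rw [← h, hab]
        simpa using h2
  have hloc : ∀ x : F, ∃ c : X →L[ℝ] ℝ, ∀ᶠ y in 𝓝 x, c ∈ t y := by
    intro x
    rcases le_or_gt ‖(x : X)‖ ρ with h | h
    · obtain ⟨p, hp, hx⟩ := mem_iUnion₂.mp (hcov (mem_closedBall_zero_iff.mpr h))
      refine ⟨r p, ?_⟩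
      filter_upwards [mem_interior_iff_mem_nhds.mp hx] with y hy
      exact ⟨fun _ => ⟨hM _ (mem_closedBall_zero_iff.mp (hP0 p hp)),
        fun v => ⟨p, hp, hy.1, le_rfl⟩⟩, hy.2⟩
    · obtain ⟨c, -, hc⟩ := exists_dual_vector'' ℝ (x : X)
      have hc' : c x = ‖(x : X)‖ := hc
      refine ⟨c, ?_⟩
      filter_upwards [hn.continuousAt.eventually (lt_mem_nhds h),
        hev x c (hc' ▸ hρ.trans_lt h)] with y hy hy2
      exact ⟨fun h' => absurd hy h'.not_gt, fun _ => hy2⟩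
  obtain ⟨g, hg⟩ := exists_continuous_forall_mem_convex_of_local_const ht hloc
  obtain ⟨z, hz⟩ := Pool.Agent.Lib.Brouwer.exists_zero_of_pos_radial
    (fun z : F => (g z).comp F.subtypeL) (g.continuous.clm_comp continuous_const) ρ
    (fun z hz => (hg z).2 hz)
  have hz0 : ∀ w ∈ F, g z w = 0 := fun w hw =>
    congrArg (fun φ : StrongDual ℝ F => φ ⟨w, hw⟩) hz
  have hzρ : ‖(z : X)‖ ≤ ρ := by
    by_contra h
    have := (hg z).2 (not_le.mp h)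
    rw [hz0 _ z.2] at this
    exact lt_irrefl _ this
  have hv : ∀ v, ∃ p ∈ {p ∈ Subtype.val '' (P0 : Set F) | ‖p - z‖ < δ}, r p v ≤ g z v := fun v => by
    obtain ⟨p, hp0, hp, hpv⟩ := ((hg z).1 hzρ).2 v
    exact ⟨p, ⟨mem_image_of_mem _ hp0, hp⟩, hpv⟩
  refine ⟨z, z.2, {p ∈ Subtype.val '' (P0 : Set F) | ‖p - z‖ < δ},
    (P0.finite_toSet.image _).subset (sep_subset _ _), ?_, ?_, g z, ((hg z).1 hzρ).1, hz0, hv⟩
  · obtain ⟨p, hp, -⟩ := hv 0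
    exact ⟨p, hp⟩
  · rintro _ ⟨⟨p, hp, rfl⟩, h⟩
    exact ⟨mem_closedBall_zero_iff.mp (hP0 p hp), h⟩

theorem weak_zero
    (hrefl : ∀ φ : (X →L[ℝ] ℝ) →L[ℝ] ℝ, ∃ x : X, ∀ f : X →L[ℝ] ℝ, φ f = f x)
    (d : ℕ → X) (M : ℝ) (hM : ∀ n, ‖d n‖ ≤ M)
    (hnorm : ∀ e ∈ Submodule.span ℝ (range d), ∃ g : X →L[ℝ] ℝ, ‖g‖ ≤ 1 ∧ ‖e‖ ≤ 2 * g e ∧
      Tendsto (fun n => g (d n)) atTop (𝓝 0)) (f : X →L[ℝ] ℝ) :
    Tendsto (fun n => f (d n)) atTop (𝓝 0) := by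
  rw [tendsto_iff_ultrafilter]
  intro U hU
  obtain ⟨x, hx⟩ := exists_ultra_limit hrefl U d M hM
  have hcl : x ∈ closure (Submodule.span ℝ (range d) : Set X) := by
    refine mem_closure_of_forall_dual _ x fun φ hφ => ?_
    have h1 := hx φ
    have h2 : (fun j => φ (d j)) = fun _ => 0 := funext fun j =>
      hφ _ (Submodule.subset_span (mem_range_self _))
    rw [h2] at h1
    exact tendsto_nhds_unique h1 tendsto_const_nhds
  have hx0 : x = 0 := by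
    refine norm_le_zero_iff.mp (le_of_forall_pos_le_add fun ε hε => ?_)
    obtain ⟨e, he, hxe⟩ := Metric.mem_closure_iff.mp hcl (ε / 3) (by positivity)
    obtain ⟨g, hg1, hg2, hg3⟩ := hnorm e he
    have e0 : g x = 0 := tendsto_nhds_unique (hx g) (hg3.mono_left hU)
    rw [dist_eq_norm] at hxe
    have e2 := apply_le_mul hg1 (e - x)
    have e3 : ‖x‖ ≤ ‖e‖ + ‖x - e‖ := norm_le_norm_add_norm_sub' x e
    rw [norm_sub_rev, map_sub] at e2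
    linarith
  have := hx f
  rwa [hx0, map_zero] at this

theorem exists_norming_fin (E : Submodule ℝ X) [FiniteDimensional ℝ E] :
    ∃ G : Finset (X →L[ℝ] ℝ), ∀ e ∈ E, ∃ g ∈ Submodule.span ℝ (G : Set (X →L[ℝ] ℝ)),
      ‖g‖ ≤ 1 ∧ ‖e‖ ≤ 2 * g e := by
  obtain ⟨N, hN, hN2⟩ := exists_norming
    (E.map (NormedSpace.inclusionInDoubleDual ℝ X).toLinearMap)
  obtain ⟨G, hG⟩ := (Submodule.fg_iff_finiteDimensional N).mpr hN
  refine ⟨G, fun e he => ?_⟩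
  obtain ⟨g, hg, hg1, hg2⟩ := hN2 _ (Submodule.mem_map_of_mem he)
  refine ⟨g, hG ▸ hg, hg1, ?_⟩
  have : ‖NormedSpace.inclusionInDoubleDual ℝ X e‖ = ‖e‖ :=
    (NormedSpace.inclusionInDoubleDualLi ℝ (E := X)).norm_map e
  rw [← this]
  exact hg2

theorem exists_seq1
    (hrefl : ∀ φ : (X →L[ℝ] ℝ) →L[ℝ] ℝ, ∃ x : X, ∀ f : X →L[ℝ] ℝ, φ f = f x)
    (xs : Finset (X →L[ℝ] ℝ) → ℕ → X → X) (r : Finset (X →L[ℝ] ℝ) → ℕ → X → (X →L[ℝ] ℝ))
    (δ : Finset (X →L[ℝ] ℝ) → ℕ → ℝ) (ρ M R' A : ℝ) (hρ : 0 ≤ ρ)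
    (hM : ∀ G n p, ‖p‖ ≤ ρ → ‖r G n p‖ ≤ M) (hR : ∀ G n p, ‖p‖ ≤ ρ → ‖xs G n p‖ ≤ R')
    (hpos : ∀ G n p, ‖p‖ = ρ → 0 < r G n p p) (hδ : ∀ G n, 0 < δ G n)
    (hδ1 : ∀ G n, δ G n ≤ 1 / ((n : ℝ) + 1))
    (hxs : ∀ G n p p', ‖p - p'‖ ≤ 2 * δ G n → ∀ g ∈ G,
      g (xs G n p - xs G n p') ^ 2 ≤ A * (1 / ((n : ℝ) + 1))) :
    ∃ (G : ℕ → Finset (X →L[ℝ] ℝ)) (m : ℕ → ℕ) (P : ℕ → Set X) (xt : X), StrictMono m ∧
      (∀ n, ∀ p ∈ P n, ‖p‖ ≤ ρ) ∧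
      (∀ (ψ : ℕ → ℕ) (p : ℕ → X), Tendsto ψ atTop atTop → (∀ k, p k ∈ P (ψ k)) →
        ∀ f : X →L[ℝ] ℝ, Tendsto (fun k => f (xs (G (ψ k)) (m (ψ k)) (p k))) atTop (𝓝 (f xt))) ∧
      ∀ (a b : X) (s ε : ℝ), 0 ≤ s → 0 < ε → ∀ᶠ n in atTop, ∃ p ∈ P n,
        r (G n) (m n) p (p - a) + s * r (G n) (m n) p (p - b) ≤ ε := by
  classical
  let S := {s : Submodule ℝ X × Submodule ℝ (X →L[ℝ] ℝ) × Submodule ℝ X × Finset (X →L[ℝ] ℝ) //
    FiniteDimensional ℝ s.1 ∧ FiniteDimensional ℝ s.2.1 ∧ FiniteDimensional ℝ s.2.2.1}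
  have happ : ∀ (s : S) (n : ℕ), ∃ z ∈ s.1.1, ∃ P : Set X, P.Finite ∧ P.Nonempty ∧
      (∀ p ∈ P, ‖p‖ ≤ ρ ∧ ‖p - z‖ < δ s.1.2.2.2 n) ∧ ∃ ζ : X →L[ℝ] ℝ, ‖ζ‖ ≤ M ∧
      (∀ w ∈ s.1.1, ζ w = 0) ∧ ∀ v, ∃ p ∈ P, r s.1.2.2.2 n p v ≤ ζ v := by
    intro s n
    have := s.2.1
    exact exists_approx_fin _ ρ M hρ (hM _ _) (hpos _ _) s.1.1 _ (hδ _ _)
  choose zf hzF Pf hPf hPn hPρ ζf hζM hζF hζv using happ
  have hstep : ∀ (s : S) (n : ℕ), ∃ s' : S, s.1.1 ≤ s'.1.1 ∧ s.1.2.1 ≤ s'.1.2.1 ∧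
      s.1.2.2.1 ≤ s'.1.2.2.1 ∧ s.1.2.2.2 ≤ s'.1.2.2.2 ∧ ζf s n ∈ s'.1.2.1 ∧
      (∀ η ∈ s'.1.2.1, ∃ w ∈ s'.1.1, ‖w‖ ≤ 1 ∧ ‖η‖ ≤ 2 * η w) ∧
      (∀ p ∈ Pf s n, xs s.1.2.2.2 n p ∈ s'.1.2.2.1) ∧
      ∀ e ∈ s'.1.2.2.1, ∃ g ∈ Submodule.span ℝ (s'.1.2.2.2 : Set (X →L[ℝ] ℝ)),
        ‖g‖ ≤ 1 ∧ ‖e‖ ≤ 2 * g e := by
    intro s n
    have := s.2.1
    have := s.2.2.1
    have := s.2.2.2
    have : FiniteDimensional ℝ (Submodule.span ℝ (xs s.1.2.2.2 n '' Pf s n)) :=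
      FiniteDimensional.span_of_finite ℝ ((hPf s n).image _)
    obtain ⟨N, hN, hN2⟩ := exists_norming (s.1.2.1 ⊔ Submodule.span ℝ {ζf s n})
    obtain ⟨G, hG⟩ := exists_norming_fin
      (s.1.2.2.1 ⊔ Submodule.span ℝ (xs s.1.2.2.2 n '' Pf s n))
    refine ⟨⟨(s.1.1 ⊔ N, s.1.2.1 ⊔ Submodule.span ℝ {ζf s n},
      s.1.2.2.1 ⊔ Submodule.span ℝ (xs s.1.2.2.2 n '' Pf s n), s.1.2.2.2 ∪ G),
      inferInstance, inferInstance, inferInstance⟩,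
      le_sup_left, le_sup_left, le_sup_left, Finset.subset_union_left,
      Submodule.mem_sup_right (Submodule.mem_span_singleton_self _), fun η hη => ?_,
      fun p hp => Submodule.mem_sup_right (Submodule.subset_span (mem_image_of_mem _ hp)),
      fun e he => ?_⟩
    · obtain ⟨w, hw, hw2⟩ := hN2 η hη
      exact ⟨w, Submodule.mem_sup_right hw, hw2⟩
    · obtain ⟨g, hg, hg2⟩ := hG e he
      exact ⟨g, Submodule.span_mono (by simp) hg, hg2⟩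
  choose step hs1 hs2 hs5 hs6 hs3 hs4 hs7 hs8 using hstep
  let σ : ℕ → S := fun n => Nat.rec ⟨(⊥, ⊥, ⊥, ∅), inferInstance, inferInstance, inferInstance⟩
    (fun n s => step s n) n
  have hσ : ∀ n, σ (n + 1) = step (σ n) n := fun _ => rfl
  have hF : Monotone fun n => (σ n).1.1 := monotone_nat_of_le_succ fun n => hs1 _ _
  have hZ : Monotone fun n => (σ n).1.2.1 := monotone_nat_of_le_succ fun n => hs2 _ _
  have hE : Monotone fun n => (σ n).1.2.2.1 := monotone_nat_of_le_succ fun n => hs5 _ _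
  have hG : Monotone fun n => (σ n).1.2.2.2 := monotone_nat_of_le_succ fun n => hs6 _ _
  have hspan : ∀ {Y : Type _} [AddCommGroup Y] [Module ℝ Y] (Z : ℕ → Submodule ℝ Y), Monotone Z →
      ∀ d : ℕ → Y, (∀ k, ∃ m, d k ∈ Z (m + 1)) →
      ∀ η ∈ Submodule.span ℝ (range d), ∃ m, η ∈ Z (m + 1) := by
    intro Y _ _ Z hZ d hd η hη
    induction hη using Submodule.span_induction with
    | mem x hx =>
      obtain ⟨n, rfl⟩ := hx
      exact hd n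
    | zero => exact ⟨0, Submodule.zero_mem _⟩
    | add x y _ _ hx hy =>
      obtain ⟨m, hm⟩ := hx
      obtain ⟨k, hk⟩ := hy
      exact ⟨max m k, Submodule.add_mem _
        (hZ (show m + 1 ≤ max m k + 1 by omega) hm) (hZ (show k + 1 ≤ max m k + 1 by omega) hk)⟩
    | smul a x _ hx =>
      obtain ⟨m, hm⟩ := hx
      exact ⟨m, Submodule.smul_mem _ _ hm⟩
  let ζ : ℕ → (X →L[ℝ] ℝ) := fun n => ζf (σ n) n
  have hζ0 : ∀ v, Tendsto (fun n => ζ n v) atTop (𝓝 0) := by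
    refine tendsto_zero_of_norming hrefl ζ M (fun n => hζM _ _) fun η hη => ?_
    obtain ⟨m, hm⟩ := hspan _ hZ ζ (fun k => ⟨k, hs3 _ _⟩) η hη
    obtain ⟨w, hw, hw1, hw2⟩ := hs4 _ _ η hm
    refine ⟨w, hw1, hw2, ?_⟩
    filter_upwards [eventually_ge_atTop (m + 1)] with n hn
    exact hζF _ _ w (hF hn hw)
  choose q hq using fun n => hPn (σ n) n
  let x : ℕ → X → X := fun n p => xs (σ n).1.2.2.2 n p
  obtain ⟨φ, xt, hφ, hxt⟩ := exists_weak_subseq hrefl (fun n => x n (q n)) R'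
    fun n => hR _ _ _ (hPρ _ _ _ (hq n)).1
  have hθ : Tendsto (fun n : ℕ => 1 / ((n : ℝ) + 1)) atTop (𝓝 0) :=
    tendsto_one_div_add_atTop_nhds_zero_nat
  refine ⟨fun n => (σ (φ n)).1.2.2.2, φ, fun n => Pf (σ (φ n)) (φ n), xt, hφ,
    fun n p hp => (hPρ _ _ _ hp).1, fun ψ p hψ hp f => ?_, fun a b s ε hs hε => ?_⟩
  · have hφψ : Tendsto (fun k => φ (ψ k)) atTop atTop := hφ.tendsto_atTop.comp hψ
    let d : ℕ → X := fun k => x (φ (ψ k)) (p k) - x (φ (ψ k)) (q (φ (ψ k)))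
    have hd0 : ∀ m, ∀ g ∈ Submodule.span ℝ (((σ m).1.2.2.2 : Finset _) : Set (X →L[ℝ] ℝ)),
        Tendsto (fun k => g (d k)) atTop (𝓝 0) := by
      intro m g hg
      induction hg using Submodule.span_induction with
      | mem g hg =>
        have l1 : Tendsto (fun k => A * (1 / (((φ (ψ k) : ℕ) : ℝ) + 1))) atTop (𝓝 0) := by
          simpa using (hθ.comp hφψ).const_mul A
        have l2 : Tendsto (fun k => g (d k) ^ 2) atTop (𝓝 0) := by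
          refine squeeze_zero' (Eventually.of_forall fun k => sq_nonneg _) ?_ l1
          filter_upwards [hφψ.eventually (eventually_ge_atTop m)] with k hk
          refine hxs _ _ _ _ ?_ g (hG hk hg)
          have e1 := (hPρ _ _ _ (hp k)).2
          have e2 := (hPρ _ _ _ (hq (φ (ψ k)))).2
          have e3 := norm_sub_le (p k - zf (σ (φ (ψ k))) (φ (ψ k)))
            (q (φ (ψ k)) - zf (σ (φ (ψ k))) (φ (ψ k)))
          rw [sub_sub_sub_cancel_right] at e3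
          linarith
        have l3 := l2.sqrt
        simp only [Real.sqrt_sq_eq_abs, Real.sqrt_zero] at l3
        exact tendsto_zero_iff_abs_tendsto_zero _ |>.mpr l3
      | zero => simp
      | add g h _ _ hg hh => simpa using hg.add hh
      | smul c g _ hg => simpa using hg.const_mul c
    have hd := weak_zero hrefl d (R' + R') (fun k => (norm_sub_le _ _).trans
      (add_le_add (hR _ _ _ (hPρ _ _ _ (hp k)).1) (hR _ _ _ (hPρ _ _ _ (hq _)).1)))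
      (fun e he => by
        obtain ⟨m, hm⟩ := hspan _ hE d (fun k => ⟨φ (ψ k),
          Submodule.sub_mem _ (hs7 _ _ _ (hp k)) (hs7 _ _ _ (hq _))⟩) e he
        obtain ⟨g, hg, hg1, hg2⟩ := hs8 _ _ e hm
        exact ⟨g, hg1, hg2, hd0 (m + 1) g hg⟩) f
    have := hd.add ((hxt f).comp hψ)
    rw [zero_add] at this
    refine this.congr fun k => ?_
    simp [d, x]
  · have l1 : Tendsto (fun n : ℕ => -ζ n a - s * ζ n b + (1 + s) * M * (1 / ((n : ℝ) + 1))) atTop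
        (𝓝 (-0 - s * 0 + (1 + s) * M * 0)) :=
      (((hζ0 a).neg).sub ((hζ0 b).const_mul _)).add (hθ.const_mul _)
    simp only [neg_zero, mul_zero, add_zero, sub_self] at l1
    filter_upwards [hφ.tendsto_atTop.eventually (l1.eventually (gt_mem_nhds hε))] with n hn
    obtain ⟨p, hp, hpv⟩ := hζv (σ (φ n)) (φ n)
      ((zf (σ (φ n)) (φ n) - a) + s • (zf (σ (φ n)) (φ n) - b))
    refine ⟨p, hp, ?_⟩
    have e1 := hζF (σ (φ n)) (φ n) _ (hzF (σ (φ n)) (φ n))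
    have e2 := hM (σ (φ n)).1.2.2.2 (φ n) p (hPρ _ _ _ hp).1
    have e3 := apply_le_mul e2 (p - zf (σ (φ n)) (φ n))
    have e4 := mul_le_mul_of_nonneg_left ((hPρ _ _ _ hp).2.le.trans (hδ1 _ _))
      ((norm_nonneg _).trans e2)
    have e5 := mul_le_mul_of_nonneg_left (e3.trans e4) (show 0 ≤ 1 + s by linarith)
    simp only [map_add, map_smul, map_sub, smul_eq_mul, e1, ζ] at hpv e5 hn ⊢
    linarith

end Multi438
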