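import Mathlib
import Pool.Agent.P.MP_438bde_an.Decomp
import Pool.Agent.P.MP_438bde_an.Approx

/-!
Surjectivity of coercive T-pseudomonotone perturbations of maximal monotone maps.
-/

open Filter Topology Metric Set

namespace Pool.Agent.P.MP_438bde_an

variable {X : Type*} [NormedAddCommGroup X] [NormedSpace ℝ X]

theorem apply_le_mul {f : X →L[ℝ] ℝ} {C : ℝ} (h : ‖f‖ ≤ C) (x : X) : f x ≤ C * ‖x‖ :=
  (apply_le_norm_mul f x).trans (mul_le_mul_of_nonneg_right h (norm_nonneg _))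

theorem neg_mul_le_apply {f : X →L[ℝ] ℝ} {C : ℝ} (h : ‖f‖ ≤ C) (x : X) : -(C * ‖x‖) ≤ f x := by
  have := apply_le_mul h (-x)
  rw [map_neg, norm_neg] at this
  linarith

theorem weak_of_close {z : ℕ → X} {zb : X}
    (hz : ∀ f : X →L[ℝ] ℝ, Tendsto (fun n => f (z n)) atTop (𝓝 (f zb)))
    {p : ℕ → X} {e : ℕ → ℝ} (he : Tendsto e atTop (𝓝 0)) (hp : ∀ n, ‖p n - z n‖ ≤ e n)
    (f : X →L[ℝ] ℝ) : Tendsto (fun n => f (p n)) atTop (𝓝 (f zb)) := by
  have h1 : Tendsto (fun n => p n - z n) atTop (𝓝 0) :=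
    squeeze_zero_norm hp he
  have h2 := (f.continuous.tendsto 0).comp h1
  rw [map_zero] at h2
  have h3 := h2.add (hz f)
  rw [zero_add] at h3
  refine h3.congr fun n => ?_
  simp

theorem tendsto_theta {φ : ℕ → ℕ} (hφ : StrictMono φ) :
    Tendsto (fun n : ℕ => 1 / (((φ n : ℕ) : ℝ) + 1)) atTop (𝓝 0) :=
  tendsto_one_div_add_atTop_nhds_zero_nat.comp hφ.tendsto_atTop

theorem exists_zero
    (hrefl : ∀ φ : (X →L[ℝ] ℝ) →L[ℝ] ℝ, ∃ x : X, ∀ f : X →L[ℝ] ℝ, φ f = f x)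
    (T : X → Set (X →L[ℝ] ℝ)) (T0 : X → (X →L[ℝ] ℝ))
    (hmon : ∀ x y : X, ∀ f ∈ T x, ∀ g ∈ T y, 0 ≤ (f - g) (x - y))
    (hmax : ∀ (x : X) (f : X →L[ℝ] ℝ),
      (∀ y : X, ∀ g ∈ T y, 0 ≤ (f - g) (x - y)) → f ∈ T x)
    (hbd : ∀ R : ℝ, ∃ M : ℝ, ∀ x : X, ‖x‖ ≤ R → ‖T0 x‖ ≤ M)
    (hpm : ∀ (u : ℕ → X) (v : X) (y : ℕ → (X →L[ℝ] ℝ)),
      (∀ f : X →L[ℝ] ℝ, Tendsto (fun j => f (u j)) atTop (𝓝 (f v))) →
      (∀ j, y j ∈ T (u j)) → (∃ C : ℝ, ∀ j, ‖y j‖ ≤ C) →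
      (∀ ε : ℝ, 0 < ε → ∀ᶠ j in atTop, (T0 (u j)) (u j - v) ≤ ε) →
      ((∀ w : X, Tendsto (fun j => T0 (u j) w) atTop (𝓝 (T0 v w))) ∧
        Tendsto (fun j => (T0 (u j)) (u j - v)) atTop (𝓝 0)))
    (R : ℝ) (hco : ∀ x : X, ∀ y ∈ T x, R ≤ ‖x‖ → ‖x‖ ≤ (y + T0 x) x) :
    ∃ x : X, -T0 x ∈ T x := by
  obtain ⟨x0, y0, h0⟩ : ∃ x0, ∃ y0, y0 ∈ T x0 := by
    by_contra hcon
    push Not at hcon
    exact hcon 0 0 (hmax 0 0 fun y g hg => absurd hg (hcon y g))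
  set R1 := max R 1 with hR1
  have hR1pos : 1 ≤ R1 := le_max_right _ _
  have hRR1 : R ≤ R1 := le_max_left _ _
  set ρ := R1 + ‖x0‖ + 1 with hρ
  have hx0 := norm_nonneg x0
  have hy0 := norm_nonneg y0
  set R' := (ρ + 1) + 2 * (ρ + 1 + ‖x0‖) with hR'
  obtain ⟨C0, hC0⟩ := hbd R'
  have hC0pos : 0 ≤ C0 := (norm_nonneg _).trans (hC0 0 (by rw [norm_zero]; positivity))
  set C' := 3 * ‖y0‖ + C0 + 1 with hC'
  set C := 2 * C0 + C' + 1 + C0 * (‖x0‖ + 1 + R1) + ‖y0‖ * (R1 + ‖x0‖) with hC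
  have hCge : 2 * C0 + C' + 1 ≤ C := by
    have h1 : 0 ≤ C0 * (‖x0‖ + 1 + R1) := by positivity
    have h2 : 0 ≤ ‖y0‖ * (R1 + ‖x0‖) := by positivity
    linarith
  choose xs ys hys hysC hysn hxs using
    exists_decomp hrefl T hmon hmax x0 y0 h0 C (by linarith)
  have hxsR : ∀ p, ‖p‖ ≤ ρ + 1 → ‖xs p‖ ≤ R' := by
    intro p hp
    have e1 : ‖xs p‖ ≤ ‖p‖ + ‖p - xs p‖ := by
      have := norm_sub_le p (p - xs p)
      rwa [sub_sub_cancel] at this
    have e2 := norm_sub_le p x0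
    have e3 := hxs p
    linarith
  have hT0 : ∀ p, ‖p‖ ≤ ρ + 1 → ‖T0 (xs p)‖ ≤ C0 := fun p hp => hC0 _ (hxsR p hp)
  let r : X → (X →L[ℝ] ℝ) := fun p => ys p + T0 (xs p)
  have hrM : ∀ p, ‖p‖ ≤ ρ + 1 → ‖r p‖ ≤ C + C0 := fun p hp =>
    (norm_add_le _ _).trans (add_le_add (hysC p) (hT0 p hp))
  -- basic lower bound
  have hlow : ∀ p, ‖p‖ ≤ ρ + 1 → ∀ a : X, ∀ b ∈ T a,
      b (xs p - a) + T0 (xs p) (xs p - a) + (C - C0) * ‖p - xs p‖ ≤ r p (p - a) := by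
    intro p hp a b hb
    have e1 := hmon _ _ _ (hys p) _ hb
    have e2 := hysn p
    have e3 := neg_mul_le_apply (hT0 p hp) (p - xs p)
    simp only [r, add_apply, sub_apply, map_sub] at e1 e2 e3 ⊢
    linarith
  have hpos : ∀ p, ‖p‖ = ρ → 0 < r p p := by
    intro p hp
    have hp1 : ‖p‖ ≤ ρ + 1 := by linarith
    have e2 := hysn p
    have e3 := neg_mul_le_apply (hT0 p hp1) (p - xs p)
    have hn := norm_nonneg (p - xs p)
    by_cases hx : R1 ≤ ‖xs p‖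
    · have e1 := hco _ _ (hys p) (hRR1.trans hx)
      simp only [r, add_apply, map_sub] at e1 e2 e3 ⊢
      nlinarith
    · push Not at hx
      have e1 := hmon _ _ _ (hys p) _ h0
      have e4 := neg_mul_le_apply (hysC p) x0
      have e5 := neg_norm_mul_le_apply y0 (xs p - x0)
      have e6 := neg_mul_le_apply (hT0 p hp1) (xs p)
      have e7 : ‖xs p - x0‖ ≤ R1 + ‖x0‖ := (norm_sub_le _ _).trans (by linarith)
      have e8 : ‖x0‖ + 1 ≤ ‖p - xs p‖ := by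
        have := norm_sub_norm_le p (xs p)
        linarith
      have e9 := mul_le_mul_of_nonneg_left e7 hy0
      have e10 := mul_le_mul_of_nonneg_left hx.le hC0pos
      have e11 := mul_le_mul_of_nonneg_left e8 (show 0 ≤ C - C0 by linarith)
      simp only [r, add_apply, sub_apply, map_sub] at e1 e2 e3 e5 ⊢
      nlinarith
  obtain ⟨z, ζ, zb, hzρ, hζz, hζ0, hz, hζp⟩ := exists_seq hrefl r ρ (C + C0) (by positivity)
    (fun p hp => hrM p (by linarith)) hpos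
  have hθ1 : ∀ n : ℕ, 1 / ((n : ℝ) + 1) ≤ 1 := fun n => by
    rw [div_le_one (by positivity)]; linarith [Nat.cast_nonneg (α := ℝ) n]
  have hpρ : ∀ (n : ℕ) (p : X), ‖p - z n‖ < 1 / ((n : ℝ) + 1) → ‖p‖ ≤ ρ + 1 := by
    intro n p hp
    have := norm_le_norm_add_norm_sub' p (z n)
    linarith [hzρ n, hθ1 n]
  have hθ : Tendsto (fun n : ℕ => 1 / ((n : ℝ) + 1)) atTop (𝓝 0) :=
    tendsto_one_div_add_atTop_nhds_zero_nat
  -- Claim 1
  have claim1 : ∀ η : ℝ, 0 < η → ∀ᶠ j in atTop, ∀ p : X, ‖p - z j‖ < 1 / ((j : ℝ) + 1) →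
      -η ≤ T0 (xs p) (xs p - zb) + C0 * ‖p - xs p‖ := by
    intro η hη
    by_contra hcon
    rw [not_eventually] at hcon
    obtain ⟨ψ, hψ, hψp⟩ := extraction_of_frequently_atTop hcon
    push Not at hψp
    choose p hp1 hp2 using hψp
    obtain ⟨χ, xt, hχ, hxt⟩ := exists_weak_subseq hrefl (fun k => xs (p k)) R'
      fun k => hxsR _ (hpρ _ _ (hp1 k))
    have hpw : ∀ f : X →L[ℝ] ℝ, Tendsto (fun k => f (p (χ k))) atTop (𝓝 (f zb)) := fun f =>
      (weak_of_close (z := fun k => z (ψ k)) (fun f => (hz f).comp hψ.tendsto_atTop)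
        (tendsto_theta hψ) (fun k => (hp1 k).le) f).comp hχ.tendsto_atTop
    obtain ⟨g, hg1, hg2⟩ := exists_dual_vector'' ℝ (zb - xt)
    have hg2' : g (zb - xt) = ‖zb - xt‖ := hg2
    have hgl : Tendsto (fun k => C0 * g (p (χ k) - xs (p (χ k)))) atTop
        (𝓝 (C0 * ‖zb - xt‖)) := by
      rw [← hg2']
      simp only [map_sub]
      exact ((hpw g).sub (hxt g)).const_mul C0
    have hev : ∀ᶠ k in atTop, T0 (xs (p (χ k))) (xs (p (χ k)) - xt) ≤ -(η / 2) := by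
      filter_upwards [hgl.eventually (lt_mem_nhds (show C0 * ‖zb - xt‖ - η / 2 < C0 * ‖zb - xt‖
        by linarith))] with k hk
      have e1 := hp2 (χ k)
      have e2 := apply_le_mul (hT0 _ (hpρ _ _ (hp1 (χ k)))) (zb - xt)
      have e3 := apply_le_mul hg1 (p (χ k) - xs (p (χ k)))
      have e4 := mul_le_mul_of_nonneg_left e3 hC0pos
      simp only [map_sub] at e1 e2 ⊢
      linarith
    have hlim := (hpm (fun k => xs (p (χ k))) xt (fun k => ys (p (χ k))) hxt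
      (fun k => hys _) ⟨C, fun k => hysC _⟩
      (fun ε hε => hev.mono fun k hk => by linarith)).2
    have h3 := le_of_tendsto hlim hev
    linarith
  -- Stage 1
  obtain ⟨bb, hbb, hbbC⟩ : ∃ bb ∈ T zb, ‖bb‖ ≤ C' := by
    obtain ⟨a, b, hb, hbC, hbm, -⟩ := exists_decomp hrefl T hmon hmax x0 y0 h0 C' (by linarith) zb
    have hm : ‖zb - a‖ ≤ 0 := by
      refine le_of_forall_pos_le_add fun η hη => ?_
      have hl : Tendsto (fun j : ℕ => η + (-ζ j a + (C + C0 + C') * (1 / ((j : ℝ) + 1)) -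
          (b (z j) - b zb))) atTop (𝓝 (η + (-0 + (C + C0 + C') * 0 - (b zb - b zb)))) :=
        tendsto_const_nhds.add ((((hζ0 a).neg).add (hθ.const_mul _)).sub
          ((hz b).sub tendsto_const_nhds))
      simp only [neg_zero, mul_zero, add_zero, sub_self] at hl
      rw [zero_add]
      refine ge_of_tendsto hl ?_
      filter_upwards [claim1 η hη] with j hj
      obtain ⟨p, hp, hpv⟩ := hζp j (z j - a)
      have hp1 := hpρ j p hp
      have e1 := hlow p hp1 a b hb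
      have e2 := hj p hp
      have e3 := apply_le_mul (hrM p hp1) (p - z j)
      have e4 := neg_mul_le_apply hbC (p - z j)
      have e5 := apply_le_mul hbC (p - xs p)
      have e6 := neg_mul_le_apply (hT0 p hp1) (zb - a)
      have e7 := mul_le_mul_of_nonneg_left hp.le (show 0 ≤ C + C0 + C' by linarith)
      have e8 := hζz j
      have hn := norm_nonneg (p - xs p)
      have hn2 := norm_nonneg (zb - a)
      have e9 : 0 ≤ (C - 2 * C0 - C') * ‖p - xs p‖ := mul_nonneg (by linarith) hn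
      have e10 : 0 ≤ 3 * ‖y0‖ * ‖zb - a‖ := by positivity
      simp only [map_sub] at e1 e2 e3 e4 e5 e6 hpv hbm
      nlinarith
    have : a = zb := (sub_eq_zero.mp (norm_le_zero_iff.mp hm)).symm
    exact ⟨b, this ▸ hb, hbC⟩
  -- Stage 2
  refine ⟨zb, hmax _ _ fun a b hb => ?_⟩
  set B := 1 + (C + C0) * (ρ + 1 + ‖a‖) with hB
  have hsel : ∀ k : ℕ, ∀ᶠ j in atTop, ∃ p : X, ‖p - z j‖ < 1 / ((j : ℝ) + 1) ∧
      ‖p - xs p‖ ≤ (B + 1) * (1 / ((k : ℝ) + 1)) ∧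
      T0 (xs p) (xs p - zb) ≤ (B + 1) * (1 / ((k : ℝ) + 1)) ∧
      r p (p - a) ≤ 2 * (1 / ((k : ℝ) + 1)) := by
    intro k
    set θ : ℝ := 1 / ((k : ℝ) + 1) with hθk
    have hθpos : 0 < θ := Nat.one_div_pos_of_nat
    have hθle : θ ≤ 1 := hθ1 k
    have hK : ((k : ℝ) + 1) * θ = 1 := by rw [hθk]; field_simp
    have hKpos : (0 : ℝ) < (k : ℝ) + 1 := by positivity
    have l1 : Tendsto (fun j : ℕ => -ζ j a - ((k : ℝ) + 1) * ζ j zb +
        ((k : ℝ) + 2) * (C + C0) * (1 / ((j : ℝ) + 1))) atTop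
        (𝓝 (-0 - ((k : ℝ) + 1) * 0 + ((k : ℝ) + 2) * (C + C0) * 0)) :=
      (((hζ0 a).neg).sub ((hζ0 zb).const_mul _)).add (hθ.const_mul _)
    have l2 : Tendsto (fun j : ℕ => bb (z j) - bb zb - C' * (1 / ((j : ℝ) + 1))) atTop
        (𝓝 (bb zb - bb zb - C' * 0)) :=
      ((hz bb).sub tendsto_const_nhds).sub (hθ.const_mul _)
    simp only [neg_zero, mul_zero, add_zero, sub_self] at l1 l2
    filter_upwards [claim1 (θ ^ 2 / 2) (by positivity), l1.eventually (gt_mem_nhds hθpos),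
      l2.eventually (lt_mem_nhds (show -(θ ^ 2 / 2) < 0 by
        have : 0 < θ ^ 2 / 2 := by positivity
        linarith))] with j hj1 hj2 hj3
    obtain ⟨p, hp, hpv⟩ := hζp j ((z j - a) + ((k : ℝ) + 1) • (z j - zb))
    have hp1 := hpρ j p hp
    have hn := norm_nonneg (p - xs p)
    have e1 := hlow p hp1 zb bb hbb
    have e2 := hj1 p hp
    have e3 := apply_le_mul (hrM p hp1) (p - z j)
    have e4 := neg_mul_le_apply hbbC (p - z j)
    have e5 := apply_le_mul hbbC (p - xs p)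
    have e7 := mul_le_mul_of_nonneg_left hp.le (show 0 ≤ C + C0 by linarith)
    have e7' := mul_le_mul_of_nonneg_left hp.le (show 0 ≤ C' by linarith)
    have e8 := hζz j
    have e9 : ‖p - xs p‖ ≤ (C - 2 * C0 - C') * ‖p - xs p‖ :=
      le_mul_of_one_le_left hn (by linarith)
    have e10 := neg_mul_le_apply (hrM p hp1) (p - a)
    have e11 : ‖p - a‖ ≤ ρ + 1 + ‖a‖ := (norm_sub_le _ _).trans (by linarith)
    have e12 := mul_le_mul_of_nonneg_left e11 (show 0 ≤ C + C0 by linarith)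
    -- the two key quantities
    set d := r p (p - zb) with hd
    set e := r p (p - a) with he
    have hsum : e + ((k : ℝ) + 1) * d ≤ θ := by
      have f1 : e + ((k : ℝ) + 1) * d = r p ((z j - a) + ((k : ℝ) + 1) • (z j - zb)) +
          ((k : ℝ) + 2) * r p (p - z j) := by
        simp only [hd, he, map_add, map_smul, map_sub, smul_eq_mul]
        ring
      have f2 : ζ j ((z j - a) + ((k : ℝ) + 1) • (z j - zb)) =
          -ζ j a - ((k : ℝ) + 1) * ζ j zb := by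
        simp only [map_add, map_smul, map_sub, smul_eq_mul, e8]
        ring
      have f3 := mul_le_mul_of_nonneg_left (e3.trans e7) (show (0 : ℝ) ≤ (k : ℝ) + 2 by positivity)
      rw [f1]
      rw [f2] at hpv
      linarith
    have hbp : -(θ ^ 2 / 2) - C' * ‖p - xs p‖ ≤ bb (xs p - zb) := by
      simp only [map_sub] at e4 e5 ⊢
      linarith
    have hd1 : -θ ^ 2 + ‖p - xs p‖ ≤ d := by linarith
    have hd2 : d ≤ B * θ := by
      have f1 : ((k : ℝ) + 1) * d ≤ B := by linarith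
      have f2 := mul_le_mul_of_nonneg_left f1 hθpos.le
      have f3 : θ * (((k : ℝ) + 1) * d) = d := by rw [← mul_assoc, mul_comm θ, hK, one_mul]
      linarith
    have hθ2 : θ ^ 2 ≤ θ := by nlinarith
    refine ⟨p, hp, by linarith, ?_, ?_⟩
    · have : 0 ≤ C0 * ‖p - xs p‖ := by positivity
      linarith
    · have f1 : -θ ≤ ((k : ℝ) + 1) * d := by
        have f2 := mul_le_mul_of_nonneg_left (show -θ ^ 2 ≤ d by linarith) hKpos.le
        have f3 : ((k : ℝ) + 1) * -θ ^ 2 = -θ := by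
          rw [mul_neg, pow_two, ← mul_assoc, hK, one_mul]
        linarith
      linarith
  obtain ⟨φ, hφ, hφp⟩ := extraction_forall_of_eventually hsel
  choose p hp1 hp2 hp3 hp4 using hφp
  have hpw : ∀ f : X →L[ℝ] ℝ, Tendsto (fun k => f (p k)) atTop (𝓝 (f zb)) :=
    weak_of_close (z := fun k => z (φ k)) (fun f => (hz f).comp hφ.tendsto_atTop)
      (tendsto_theta hφ) (fun k => (hp1 k).le)
  have hBθ : Tendsto (fun k : ℕ => (B + 1) * (1 / ((k : ℝ) + 1))) atTop (𝓝 0) := by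
    simpa using hθ.const_mul (B + 1)
  have hxw : ∀ f : X →L[ℝ] ℝ, Tendsto (fun k => f (xs (p k))) atTop (𝓝 (f zb)) :=
    weak_of_close hpw hBθ (fun k => by rw [norm_sub_rev]; exact hp2 k)
  obtain ⟨hl1, hl2⟩ := hpm (fun k => xs (p k)) zb (fun k => ys (p k)) hxw
    (fun k => hys _) ⟨C, fun k => hysC _⟩
    (fun ε hε => (hBθ.eventually (gt_mem_nhds hε)).mono fun k hk => (hp3 k).trans hk.le)
  have l1 : Tendsto (fun k => (b (xs (p k)) - b a) + (T0 (xs (p k)) (xs (p k) - zb) +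
      T0 (xs (p k)) (zb - a))) atTop (𝓝 ((b zb - b a) + (0 + T0 zb (zb - a)))) :=
    ((hxw b).sub tendsto_const_nhds).add (hl2.add (hl1 _))
  have l2 : Tendsto (fun k : ℕ => 2 * (1 / ((k : ℝ) + 1))) atTop (𝓝 0) := by
    simpa using hθ.const_mul 2
  have hfin := le_of_tendsto_of_tendsto' l1 l2 fun k => by
    have e1 := hlow (p k) (hpρ _ _ (hp1 k)) a b hb
    have e2 := hp4 k
    have e3 : 0 ≤ (C - C0) * ‖p k - xs (p k)‖ := mul_nonneg (by linarith) (norm_nonneg _)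
    simp only [map_sub] at e1 e2 ⊢
    linarith
  simp only [sub_apply, neg_apply, map_sub] at hfin ⊢
  linarith

theorem main
    (hrefl : ∀ φ : (X →L[ℝ] ℝ) →L[ℝ] ℝ, ∃ x : X, ∀ f : X →L[ℝ] ℝ, φ f = f x)
    (T : X → Set (X →L[ℝ] ℝ)) (T0 : X → (X →L[ℝ] ℝ))
    (hmon : ∀ x y : X, ∀ f ∈ T x, ∀ g ∈ T y, 0 ≤ (f - g) (x - y))
    (hmax : ∀ (x : X) (f : X →L[ℝ] ℝ),
      (∀ y : X, ∀ g ∈ T y, 0 ≤ (f - g) (x - y)) → f ∈ T x)
    (hbd : ∀ R : ℝ, ∃ M : ℝ, ∀ x : X, ‖x‖ ≤ R → ‖T0 x‖ ≤ M)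
    (hpm : ∀ (u : ℕ → X) (v : X) (y : ℕ → (X →L[ℝ] ℝ)),
      (∀ f : X →L[ℝ] ℝ, Tendsto (fun j => f (u j)) atTop (𝓝 (f v))) →
      (∀ j, y j ∈ T (u j)) → (∃ C : ℝ, ∀ j, ‖y j‖ ≤ C) →
      (∀ ε : ℝ, 0 < ε → ∀ᶠ j in atTop, (T0 (u j)) (u j - v) ≤ ε) →
      ((∀ φ : (X →L[ℝ] ℝ) →L[ℝ] ℝ,
          Tendsto (fun j => φ (T0 (u j))) atTop (𝓝 (φ (T0 v)))) ∧
        Tendsto (fun j => (T0 (u j)) (u j - v)) atTop (𝓝 0)))
    (hco : ∀ M : ℝ, ∃ R : ℝ, ∀ x : X, ∀ y ∈ T x, R ≤ ‖x‖ → M * ‖x‖ ≤ (y + T0 x) x)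
    (f : X →L[ℝ] ℝ) : ∃ x : X, ∃ y ∈ T x, y + T0 x = f := by
  obtain ⟨R, hR⟩ := hco (1 + ‖f‖)
  obtain ⟨x, hx⟩ := exists_zero hrefl T (fun x => T0 x - f) hmon hmax
    (fun R => by
      obtain ⟨M, hM⟩ := hbd R
      exact ⟨M + ‖f‖, fun x hx => (norm_sub_le _ _).trans (by linarith [hM x hx])⟩)
    (fun u v y hu hy hC hε => by
      have hf : Tendsto (fun j => f (u j - v)) atTop (𝓝 0) := by
        simp only [map_sub]
        simpa using (hu f).sub (tendsto_const_nhds (x := f v))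
      obtain ⟨h1, h2⟩ := hpm u v y hu hy hC fun ε hε0 => by
        filter_upwards [hε (ε / 2) (by positivity),
          hf.eventually (gt_mem_nhds (show 0 < ε / 2 by positivity))] with j hj1 hj2
        simp only [sub_apply] at hj1
        linarith
      refine ⟨fun w => ?_, ?_⟩
      · simp only [sub_apply]
        exact (h1 (ContinuousLinearMap.apply ℝ ℝ w)).sub tendsto_const_nhds
      · simp only [sub_apply]
        simpa using h2.sub hf)
    R (fun x y hy hx => by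
      have e1 := hR x y hy hx
      have e2 := apply_le_norm_mul f x
      simp only [add_apply, sub_apply] at e1 ⊢
      linarith)
  exact ⟨x, _, hx, by abel⟩

end Pool.Agent.P.MP_438bde_an
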